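import Pool.Agent.Y986.FB.Pot
import Pool.Agent.W930.FG.Blk

/-!
# Frog model: block sums of the potential
-/

set_option autoImplicit false

namespace FrogB

open FrogGW (Env InTree Survive GW unif Rd Conf cnt sh sub lev vert cross Reach ww wn an na)
open MeasureTheory ProbabilityTheory Filter
open scoped ENNReal NNReal Classical
open Pool.Agent.W930.FG (sh_sub)

/-- the part of the block below `u` within `m` levels -/
noncomputable def blk (b lam γ : ℝ) (N : ℕ) (Z : Env) : ℕ → List ℕ → Finset (List ℕ)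
  | 0, _ => ∅
  | m + 1, u => insert u ((Finset.range (Z u)).biUnion fun i =>
      if trig b lam γ N Z (i :: u) then ∅ else blk b lam γ N Z m (i :: u))

section

variable {b lam γ : ℝ} (hb : 0 < b) (hl : 0 < lam) (hγ : 0 < γ) (hγ1 : γ ≤ 1) (N : ℕ) (Z : Env)

include hb hl hγ hγ1 in
theorem ta_fst (u : List ℕ) (i : ℕ) (h1 : (i :: u).length < N)
    (ht : ¬ trig b lam γ N Z (i :: u)) :
    (TA b lam γ (N - 1 - u.length) (sub (i :: u) Z)).1 * pot b lam γ N Z u =
      AA b lam γ N Z (i :: u) * pot b lam γ N Z (i :: u) := by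
  obtain ⟨m, hm⟩ : ∃ m, N - 1 - u.length = m + 1 :=
    ⟨N - 1 - u.length - 1, by simp at h1; omega⟩
  have h2 : N - 1 - (i :: u).length = m := by simp; omega
  have hA : AA b lam γ N Z (i :: u) = lam + ∑ j ∈ Finset.range ((sub (i :: u) Z) []),
      (TA b lam γ m (sh j (sub (i :: u) Z))).1 := by
    unfold AA
    rw [h2]
    simp only [sh_sub]
    rfl
  have hT : TH b lam γ N Z (i :: u) = ∑ j ∈ Finset.range ((sub (i :: u) Z) []),
      (TA b lam γ m (sh j (sub (i :: u) Z))).2 := by
    unfold TH
    rw [h2]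
    simp only [sh_sub]
    rfl
  have hT0 := TH_nonneg hb hl hγ hγ1 N Z (i :: u)
  have hT1 : 1 + TH b lam γ N Z (i :: u) ≠ 0 := by linarith
  have h3 : ¬ AA b lam γ N Z (i :: u) ≤ γ * TH b lam γ N Z (i :: u) :=
    fun h => ht ⟨by simp, h1, h⟩
  rw [hm, TA, ← hA, ← hT, if_neg h3, pot]
  simp only
  field_simp

include hb hl hγ hγ1 in
theorem child_le (u : List ℕ) (i m : ℕ) (hm : N - (i :: u).length = m)
    (ih : (i :: u).length < N → lam * ∑ y ∈ blk b lam γ N Z m (i :: u), pot b lam γ N Z y ≤
      AA b lam γ N Z (i :: u) * pot b lam γ N Z (i :: u)) :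
    lam * ∑ y ∈ (if trig b lam γ N Z (i :: u) then ∅ else blk b lam γ N Z m (i :: u)),
      pot b lam γ N Z y ≤
      (TA b lam γ (N - 1 - u.length) (sub (i :: u) Z)).1 * pot b lam γ N Z u := by
  have h0 : 0 ≤ (TA b lam γ (N - 1 - u.length) (sub (i :: u) Z)).1 * pot b lam γ N Z u :=
    mul_nonneg (taskTA b lam γ hb hl hγ hγ1 _ _).1 (pot_nonneg hb hl hγ hγ1 N Z u)
  split_ifs with ht
  · simpa using h0
  · rcases Nat.lt_or_ge (i :: u).length N with h1 | h1
    · rw [ta_fst hb hl hγ hγ1 N Z u i h1 ht]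
      exact ih h1
    · have h2 : m = 0 := by omega
      rw [h2, blk]
      simpa using h0

include hb hl hγ hγ1 in
theorem blk_le (m : ℕ) : ∀ u : List ℕ, N - u.length = m →
    lam * ∑ y ∈ blk b lam γ N Z m u, pot b lam γ N Z y ≤ AA b lam γ N Z u * pot b lam γ N Z u := by
  induction m with
  | zero =>
    intro u _
    rw [blk]
    simpa using mul_nonneg (AA_nonneg hb hl hγ hγ1 N Z u) (pot_nonneg hb hl hγ hγ1 N Z u)
  | succ m ih =>
    intro u hu
    rw [blk]
    have hp := pot_nonneg hb hl hγ hγ1 N Z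
    have h1 := Pool.Agent.W930.FG.sum_insert_le u ((Finset.range (Z u)).biUnion fun i =>
      if trig b lam γ N Z (i :: u) then ∅ else blk b lam γ N Z m (i :: u)) _ hp
    have h2 := Pool.Agent.W930.FG.sum_biUnion_le (Finset.range (Z u)) (fun i =>
      if trig b lam γ N Z (i :: u) then ∅ else blk b lam γ N Z m (i :: u)) _ hp
    have h3 : ∑ i ∈ Finset.range (Z u), lam *
        ∑ y ∈ (if trig b lam γ N Z (i :: u) then ∅ else blk b lam γ N Z m (i :: u)),
          pot b lam γ N Z y ≤
        ∑ i ∈ Finset.range (Z u),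
          (TA b lam γ (N - 1 - u.length) (sub (i :: u) Z)).1 * pot b lam γ N Z u :=
      Finset.sum_le_sum fun i _ => child_le hb hl hγ hγ1 N Z u i m (by simp; omega)
        fun _ => ih (i :: u) (by simp; omega)
    rw [← Finset.mul_sum, ← Finset.sum_mul] at h3
    have h4 : AA b lam γ N Z u * pot b lam γ N Z u = lam * pot b lam γ N Z u +
        (∑ i ∈ Finset.range (Z u), (TA b lam γ (N - 1 - u.length) (sub (i :: u) Z)).1) *
          pot b lam γ N Z u := by
      unfold AA
      ring
    rw [h4]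
    have h5 := mul_le_mul_of_nonneg_left (h1.trans (add_le_add_right h2 _)) hl.le
    rw [mul_add] at h5
    linarith

end

section

variable (b lam γ : ℝ) (N : ℕ) (Z : Env)

theorem inTree_of_append (v u : List ℕ) (h : InTree Z (v ++ u)) : InTree Z u := by
  induction v with
  | nil => exact h
  | cons i v ih => exact ih h.1

theorem mem_blk (v : List ℕ) : ∀ u : List ℕ, InTree Z (v ++ u) → (v ++ u).length < N →
    (∀ w, trig b lam γ N Z w → u <:+ w → w <:+ v ++ u → w = u) →
    v ++ u ∈ blk b lam γ N Z (N - u.length) u := by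
  induction v using List.reverseRecOn with
  | nil =>
    intro u _ hlen _
    obtain ⟨m, hm⟩ : ∃ m, N - u.length = m + 1 := ⟨N - u.length - 1, by simp at hlen; omega⟩
    rw [hm, blk]
    exact Finset.mem_insert_self _ _
  | append_singleton v i ih =>
    intro u ht hlen hw
    have e : v ++ [i] ++ u = v ++ (i :: u) := by simp
    rw [e] at ht hlen hw ⊢
    have hlen' := hlen
    simp only [List.length_append, List.length_cons] at hlen'
    obtain ⟨m, hm⟩ : ∃ m, N - u.length = m + 1 := ⟨N - u.length - 1, by omega⟩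
    rw [hm, blk]
    refine Finset.mem_insert_of_mem (Finset.mem_biUnion.2 ⟨i, ?_, ?_⟩)
    · exact Finset.mem_range.2 (inTree_of_append Z v (i :: u) ht).2
    · have h1 : ¬ trig b lam γ N Z (i :: u) := by
        intro h
        have h2 := hw _ h (List.suffix_cons i u) (List.suffix_append v (i :: u))
        have h3 := congrArg List.length h2
        simp at h3
      rw [if_neg h1]
      have h4 := ih (i :: u) ht hlen (fun w hw1 hw2 hw3 => by
        have h5 := hw w hw1 ((List.suffix_cons i u).trans hw2) hw3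
        have h6 := hw2.length_le
        rw [h5] at h6
        simp at h6)
      have h7 : N - (i :: u).length = m := by simp; omega
      rw [h7] at h4
      exact h4

theorem tv_suffix (y : List ℕ) : tv b lam γ N Z y <:+ y := by
  induction y with
  | nil => rw [tv]
  | cons i u ih =>
    rw [tv]
    split_ifs
    · exact List.suffix_rfl
    · exact ih.trans (List.suffix_cons i u)

theorem suffix_tv (y : List ℕ) : ∀ w, trig b lam γ N Z w → w <:+ y → w <:+ tv b lam γ N Z y := by
  induction y with
  | nil =>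
    intro w _ hw
    rw [tv]
    exact hw
  | cons i u ih =>
    intro w hw hwy
    rw [tv]
    split_ifs with h
    · exact hwy
    · rcases List.suffix_cons_iff.1 hwy with h1 | h1
      · exact absurd (h1 ▸ hw) h
      · exact ih w hw h1

theorem mem_blk_tv (y : List ℕ) (ht : InTree Z y) (hlen : y.length < N) :
    y ∈ blk b lam γ N Z (N - (tv b lam γ N Z y).length) (tv b lam γ N Z y) := by
  obtain ⟨v, hv⟩ := tv_suffix b lam γ N Z y
  have h1 := mem_blk b lam γ N Z v (tv b lam γ N Z y) (by rw [hv]; exact ht) (by rw [hv]; exact hlen)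
    (fun w hw h2 h3 => by
      rw [hv] at h3
      have h4 := suffix_tv b lam γ N Z y w hw h3
      exact h4.eq_of_length (le_antisymm h4.length_le h2.length_le))
  rw [hv] at h1
  exact h1

theorem mem_lev {n : ℕ} : ∀ {y : List ℕ}, y ∈ lev Z n → InTree Z y ∧ y.length = n := by
  induction n with
  | zero =>
    intro y hy
    rw [lev, Finset.mem_singleton] at hy
    subst hy
    exact ⟨trivial, rfl⟩
  | succ n ih =>
    intro y hy
    rw [lev, Finset.mem_biUnion] at hy
    obtain ⟨u, hu, hy⟩ := hy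
    rw [Finset.mem_image] at hy
    obtain ⟨i, hi, rfl⟩ := hy
    obtain ⟨h1, h2⟩ := ih hu
    exact ⟨⟨h1, Finset.mem_range.1 hi⟩, by simp [h2]⟩

theorem mem_vert {y : List ℕ} (hy : y ∈ vert Z N) : InTree Z y ∧ y.length < N := by
  unfold vert at hy
  rw [Finset.mem_biUnion] at hy
  obtain ⟨n, hn, hy⟩ := hy
  obtain ⟨h1, h2⟩ := mem_lev Z hy
  exact ⟨h1, by rw [h2]; exact Finset.mem_range.1 hn⟩

end

theorem taskBlk (b lam γ : ℝ) (hb : 0 < b) (hl : 0 < lam) (hγ : 0 < γ) (hγ1 : γ ≤ 1)
    (Z : Env) (N : ℕ) :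
    (∀ t, trig b lam γ N Z t →
      ∑ y ∈ (vert Z N).filter (fun y => tv b lam γ N Z y = t), lam * pot b lam γ N Z y
        ≤ bet b lam γ N Z t) ∧
    (∑ y ∈ (blockRoot b lam γ N Z).filter (fun y => y ≠ []), lam * pot b lam γ N Z y
      ≤ (AA b lam γ N Z [] - lam) * pot b lam γ N Z []) := by
  have hp := pot_nonneg hb hl hγ hγ1 N Z
  have hlp : ∀ y, 0 ≤ lam * pot b lam γ N Z y := fun y => mul_nonneg hl.le (hp y)
  refine ⟨fun t ht => ?_, ?_⟩
  · have h1 : (vert Z N).filter (fun y => tv b lam γ N Z y = t) ⊆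
        blk b lam γ N Z (N - t.length) t := by
      intro y hy
      rw [Finset.mem_filter] at hy
      obtain ⟨hy1, rfl⟩ := hy
      obtain ⟨h2, h3⟩ := mem_vert N Z hy1
      exact mem_blk_tv b lam γ N Z y h2 h3
    calc ∑ y ∈ (vert Z N).filter (fun y => tv b lam γ N Z y = t), lam * pot b lam γ N Z y
        ≤ ∑ y ∈ blk b lam γ N Z (N - t.length) t, lam * pot b lam γ N Z y :=
          Finset.sum_le_sum_of_subset_of_nonneg h1 fun y _ _ => hlp y
      _ = lam * ∑ y ∈ blk b lam γ N Z (N - t.length) t, pot b lam γ N Z y := by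
          rw [Finset.mul_sum]
      _ ≤ AA b lam γ N Z t * pot b lam γ N Z t := blk_le hb hl hγ hγ1 N Z _ t rfl
      _ = bet b lam γ N Z t := by
          unfold bet
          rw [if_pos ht]
  · set m := N - 1 with hm
    have h1 : (blockRoot b lam γ N Z).filter (fun y => y ≠ []) ⊆
        (Finset.range (Z [])).biUnion fun i =>
          if trig b lam γ N Z [i] then ∅ else blk b lam γ N Z m [i] := by
      intro y hy
      unfold blockRoot at hy
      rw [Finset.mem_filter, Finset.mem_filter] at hy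
      obtain ⟨⟨hy1, hy2⟩, hy3⟩ := hy
      obtain ⟨h2, h3⟩ := mem_vert N Z hy1
      have h4 := mem_blk_tv b lam γ N Z y h2 h3
      rw [hy2] at h4
      have h5 : N - ([] : List ℕ).length = m + 1 := by simp; omega
      rw [h5, blk] at h4
      rcases Finset.mem_insert.1 h4 with h6 | h6
      · exact absurd h6 hy3
      · exact h6
    have h2 := Pool.Agent.W930.FG.sum_biUnion_le (Finset.range (Z [])) (fun i =>
      if trig b lam γ N Z [i] then ∅ else blk b lam γ N Z m [i]) _ hlp
    have h3 : ∑ i ∈ Finset.range (Z []),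
        ∑ y ∈ (if trig b lam γ N Z [i] then ∅ else blk b lam γ N Z m [i]),
          lam * pot b lam γ N Z y ≤
        ∑ i ∈ Finset.range (Z []),
          (TA b lam γ (N - 1 - ([] : List ℕ).length) (sub [i] Z)).1 * pot b lam γ N Z [] := by
      refine Finset.sum_le_sum fun i _ => ?_
      rw [← Finset.mul_sum]
      exact child_le hb hl hγ hγ1 N Z [] i m (by simp; omega)
        fun _ => blk_le hb hl hγ hγ1 N Z m [i] (by simp; omega)
    have h4 : (AA b lam γ N Z [] - lam) * pot b lam γ N Z [] =
        ∑ i ∈ Finset.range (Z []),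
          (TA b lam γ (N - 1 - ([] : List ℕ).length) (sub [i] Z)).1 * pot b lam γ N Z [] := by
      rw [← Finset.sum_mul]
      unfold AA
      ring
    rw [h4]
    exact (Finset.sum_le_sum_of_subset_of_nonneg h1 fun y _ _ => hlp y).trans (h2.trans h3)

end FrogB
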