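import Pool.Agent.Y986.FB.Defs
import Pool.Agent.W782.FG.Chain

/-!
# The chain bound for independent randomness with different laws at different points
-/

set_option autoImplicit false

namespace FrogB

open FrogGW MeasureTheory ProbabilityTheory
open scoped ENNReal NNReal Classical
open Pool.Agent.W782.FG (D D_meas D_update dz D_sum rel rel_erase D_reach reach_rel)

section resample

variable {ι R : Type} [MeasurableSpace R] (ν : ι → Measure R) [∀ x, IsProbabilityMeasure (ν x)]

lemma map_resample (x : ι) :
    ((Measure.infinitePi ν).prod (ν x)).map (fun p => Function.update p.1 x p.2) =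
      Measure.infinitePi ν := by
  apply Measure.eq_infinitePi
  intro s t ht
  have hm : Measurable fun p : (ι → R) × R => Function.update p.1 x p.2 := measurable_update'
  rw [Measure.map_apply hm (.pi s.countable_toSet fun _ _ => ht _)]
  have h1 : ((fun p : (ι → R) × R => Function.update p.1 x p.2) ⁻¹' (Set.pi s t)) =
      (Set.pi (s.erase x) t) ×ˢ (if x ∈ s then t x else Set.univ) := by
    ext p
    constructor
    · intro h
      constructor
      · intro i hi
        have hi' : i ≠ x ∧ i ∈ s := Finset.mem_erase.mp (by exact hi)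
        have := h i hi'.2
        simpa [Function.update_of_ne hi'.1] using this
      · split_ifs with h2
        · have := h x h2
          simpa using this
        · trivial
    · rintro ⟨h2, h3⟩ i hi
      by_cases hix : i = x
      · subst hix
        have hi' : i ∈ s := hi
        rw [if_pos hi'] at h3
        simpa using h3
      · have := h2 i (by exact Finset.mem_erase.mpr ⟨hix, hi⟩)
        simpa [Function.update_of_ne hix] using this
  rw [h1, Measure.prod_prod, Measure.infinitePi_pi _ (fun k _ => ht _)]
  by_cases h2 : x ∈ s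
  · rw [if_pos h2, mul_comm, Finset.mul_prod_erase s (fun i => ν i (t i)) h2]
  · rw [if_neg h2, measure_univ, mul_one, Finset.erase_eq_of_notMem h2]

lemma lintegral_indep (x : ι) (a : R → ℝ≥0∞) (b : (ι → R) → ℝ≥0∞) (ha : Measurable a)
    (hb : Measurable b) (hab : ∀ ω r, b (Function.update ω x r) = b ω) :
    ∫⁻ ω, a (ω x) * b ω ∂(Measure.infinitePi ν) =
      (∫⁻ r, a r ∂(ν x)) * ∫⁻ ω, b ω ∂(Measure.infinitePi ν) := by
  have hm : Measurable fun p : (ι → R) × R => Function.update p.1 x p.2 := measurable_update'
  conv_lhs => rw [← map_resample ν x]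
  have hab' : Measurable fun ω : ι → R => a (ω x) * b ω :=
    (ha.comp (measurable_pi_apply x)).mul hb
  rw [lintegral_map hab' hm]
  simp only [Function.update_self, hab]
  have h1 : ∫⁻ p : (ι → R) × R, a p.2 * b p.1 ∂((Measure.infinitePi ν).prod (ν x)) =
      ∫⁻ p : (ι → R) × R, b p.1 * a p.2 ∂((Measure.infinitePi ν).prod (ν x)) :=
    lintegral_congr fun p => mul_comm _ _
  rw [h1, lintegral_prod_mul hb.aemeasurable ha.aemeasurable, mul_comm]

end resample

section chain

variable {ι R : Type} [MeasurableSpace R] {E : ι → ι → R → Prop}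

lemma D_exp (ν : ι → Measure R) [∀ x, IsProbabilityMeasure (ν x)]
    (hE : ∀ x y, MeasurableSet {r | E x y r})
    (q : ι → R → ℝ≥0∞) (hq : ∀ x, Measurable (q x)) (U : ι → ℝ≥0∞) (S : Finset ι)
    (hU : ∀ x ∈ S, ∫⁻ r, q x r ∂(ν x) + ∑ y ∈ S, ν x {r | E x y r} * U y ≤ U x) :
    ∀ (m : ℕ) (S' : Finset ι) (x : ι), x ∈ S → x ∉ S' → S' ⊆ S →
      ∫⁻ w, D E q m S' x w ∂(Measure.infinitePi ν) ≤ U x := by
  intro m
  induction m with
  | zero =>
    intro S' x hx _ _
    have h1 : ∫⁻ w, D E q 0 S' x w ∂(Measure.infinitePi ν) = ∫⁻ r, q x r ∂(ν x) :=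
      (measurePreserving_eval_infinitePi ν x).lintegral_comp (hq x)
    rw [h1]
    exact le_trans le_self_add (hU x hx)
  | succ m ih =>
    intro S' x hx hxS' hS'
    refine le_trans ?_ (hU x hx)
    have h0 : ∀ w, D E q (m + 1) S' x w = q x (w x) +
      ∑ y ∈ S', (if E x y (w x) then D E q m (S'.erase y) y w else 0) := fun w => rfl
    simp only [h0]
    have hqx : Measurable fun w : ι → R => q x (w x) := (hq x).comp (measurable_pi_apply x)
    rw [lintegral_add_left hqx]
    have h1 : ∫⁻ w : ι → R, q x (w x) ∂(Measure.infinitePi ν) = ∫⁻ r, q x r ∂(ν x) :=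
      (measurePreserving_eval_infinitePi ν x).lintegral_comp (hq x)
    rw [h1]
    gcongr
    have hm : ∀ y ∈ S', Measurable fun w : ι → R =>
        (if E x y (w x) then D E q m (S'.erase y) y w else 0) := fun y _ =>
      Measurable.ite ((measurable_pi_apply x) (hE x y)) (D_meas hE q hq _ _ _) measurable_const
    rw [lintegral_finsetSum _ hm]
    calc ∑ y ∈ S', ∫⁻ w : ι → R, (if E x y (w x) then D E q m (S'.erase y) y w else 0)
          ∂(Measure.infinitePi ν)
        ≤ ∑ y ∈ S', ν x {r | E x y r} * U y := by
          refine Finset.sum_le_sum fun y hy => ?_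
          have h2 : ∀ w : ι → R, (if E x y (w x) then D E q m (S'.erase y) y w else 0) =
              ({r | E x y r}.indicator 1 (w x) : ℝ≥0∞) * D E q m (S'.erase y) y w := by
            intro w
            by_cases h : E x y (w x)
            · rw [if_pos h, Set.indicator_of_mem (by exact h)]
              simp
            · rw [if_neg h, Set.indicator_of_notMem (by exact h)]
              simp
          simp only [h2]
          have hxy : x ≠ y := fun h => hxS' (h ▸ hy)
          rw [lintegral_indep ν x _ _ (measurable_one.indicator (hE x y)) (D_meas hE q hq _ _ _)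
            (fun w r => D_update q m _ y x w r hxy fun h => hxS' (Finset.mem_of_mem_erase h)),
            lintegral_indicator_one (hE x y)]
          gcongr
          exact ih _ y (hS' hy) (Finset.notMem_erase y S') ((Finset.erase_subset _ _).trans hS')
      _ ≤ ∑ y ∈ S, ν x {r | E x y r} * U y := Finset.sum_le_sum_of_subset hS'

end chain

/-- The chain bound. -/
theorem chain (ι R : Type) [DecidableEq ι] [MeasurableSpace R] (ν : ι → Measure R)
    [∀ x, IsProbabilityMeasure (ν x)]
    (B S : Finset ι) (hBS : B ⊆ S) (E : ι → ι → R → Prop)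
    (hE : ∀ x y, MeasurableSet {r | E x y r})
    (q : ι → R → ℝ≥0∞) (hq : ∀ x, Measurable (q x)) (U : ι → ℝ≥0∞)
    (hU : ∀ x ∈ S, ∫⁻ r, q x r ∂(ν x) + ∑ y ∈ S, ν x {r | E x y r} * U y ≤ U x) :
    ∫⁻ ω, ∑ z ∈ S, (if Reach B S E ω z then q z (ω z) else 0)
      ∂(Measure.infinitePi ν) ≤ ∑ x ∈ B, U x := by
  rename_i hdec _ _
  clear hdec
  calc ∫⁻ ω, ∑ z ∈ S, (if Reach B S E ω z then q z (ω z) else 0)
      ∂(Measure.infinitePi ν)
      ≤ ∫⁻ ω, ∑ b ∈ B, D E q S.card (S.erase b) b ω ∂(Measure.infinitePi ν) := by
        apply lintegral_mono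
        intro w
        have h1 : ∀ z ∈ S, (if Reach B S E w z then q z (w z) else 0) ≤
            ∑ b ∈ B, D E (dz q z) S.card (S.erase b) b w := by
          intro z _
          split_ifs with h
          · obtain ⟨b, hb, h⟩ := reach_rel h
            refine le_trans ?_ (Finset.single_le_sum
              (f := fun b => D E (dz q z) S.card (S.erase b) b w) (fun _ _ => zero_le) hb)
            exact D_reach q w z _ _ _ (Finset.card_le_card (Finset.erase_subset _ _)) (rel_erase h)
          · exact zero_le
        refine (Finset.sum_le_sum h1).trans ?_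
        rw [Finset.sum_comm]
        exact Finset.sum_le_sum fun b _ => D_sum q S _ _ _ _
    _ = ∑ b ∈ B, ∫⁻ ω, D E q S.card (S.erase b) b ω ∂(Measure.infinitePi ν) :=
        lintegral_finsetSum _ fun b _ => D_meas hE q hq _ _ _
    _ ≤ ∑ x ∈ B, U x := Finset.sum_le_sum fun b hb =>
        D_exp ν hE q hq U S hU _ _ _ (hBS hb) (Finset.notMem_erase b S) (Finset.erase_subset _ _)

end FrogB
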