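import Pool.Agent.Y986.FB.Pot
import Pool.Agent.W591.FG.Comp

/-!
# Frog model: comparison of the two recursions
-/

set_option autoImplicit false

namespace FrogB

open FrogGW (Env InTree Survive GW unif Rd Conf cnt sh sub lev vert cross Reach ww wn an na Wf)
open MeasureTheory ProbabilityTheory Filter Topology
open scoped ENNReal NNReal Classical

theorem taskComp (hW : FrogGW.TaskW) (b lam γ : ℝ) (hb : 0 < b) (hl : 0 < lam) (hγ : 0 < γ)
    (hγ1 : γ < 1) (n : ℕ) : ∀ Z : Env,
    (TA b lam γ n Z).1 ≤ an ((1 - γ) / ((1 + γ) * max b 1)) lam γ n Z ∧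
    γ * ww ((1 - γ) / ((1 + γ) * max b 1)) Z ≤ (TA b lam γ n Z).2 := by
  set B : ℝ := max b 1 with hB
  have hB1 : 1 ≤ B := le_max_right _ _
  have hBb : b ≤ B := le_max_left _ _
  have hB0 : 0 < B := by linarith
  set ρ : ℝ := (1 - γ) / ((1 + γ) * B) with hρ
  have hρ0 : 0 < ρ := div_pos (by linarith) (by positivity)
  have hρ1 : ρ < 1 := (div_lt_one (by positivity)).2 (by nlinarith)
  have hbi : B⁻¹ ≤ b⁻¹ := inv_anti₀ hb hBb
  have hbi0 : 0 < b⁻¹ := inv_pos.2 hb
  obtain ⟨-, -, -, hww, hrec, -⟩ := hW ρ hρ0 hρ1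
  have han := FrogGW.W591.an_nonneg (ρ := ρ) hl hγ fun Z => (hww Z).1
  have hta := taskTA b lam γ hb hl hγ hγ1.le
  have hwρ : ∀ Z, ww ρ Z ≤ ρ := by
    intro Z
    rw [hrec Z]
    have : 0 ≤ ∏ i ∈ Finset.range (Z []), (1 - ww ρ (sh i Z)) :=
      Finset.prod_nonneg fun i _ => by linarith [(hww (sh i Z)).2]
    nlinarith
  induction n with
  | zero =>
    intro Z
    refine ⟨by simp [TA, an], ?_⟩
    simp only [TA]
    have h1 : γ * ww ρ Z ≤ ρ := by nlinarith [(hww Z).1, (hww Z).2, hwρ Z]
    have h2 : ρ ≤ B⁻¹ := by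
      rw [hρ, inv_eq_one_div, div_le_div_iff₀ (by positivity) hB0]
      nlinarith
    linarith
  | succ n ih =>
    intro Z
    -- abbreviations
    set k := Z [] with hk
    set A := lam + ∑ i ∈ Finset.range k, (TA b lam γ n (sh i Z)).1 with hA
    set T := ∑ i ∈ Finset.range k, (TA b lam γ n (sh i Z)).2 with hT
    set A' := lam + ∑ i ∈ Finset.range k, an ρ lam γ n (sh i Z) with hA'
    set S := ∑ i ∈ Finset.range k, ww ρ (sh i Z) with hS
    have hA0 : 0 < A := add_pos_of_pos_of_nonneg hl (Finset.sum_nonneg fun i _ => (hta n _).1)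
    have hAA : A ≤ A' := by
      refine add_le_add le_rfl (Finset.sum_le_sum fun i _ => (ih (sh i Z)).1)
    have hS0 : 0 ≤ S := Finset.sum_nonneg fun i _ => (hww _).1
    have hTS : γ * S ≤ T := by
      rw [hS, Finset.mul_sum]
      exact Finset.sum_le_sum fun i _ => (ih (sh i Z)).2
    have hT0 : 0 ≤ T := le_trans (mul_nonneg hγ.le hS0) hTS
    have e1 : TA b lam γ (n + 1) Z = if A ≤ γ * T then (0, b⁻¹ * ((T - A) / (1 + T)))
        else (A / (1 + T), b⁻¹ * (T / (1 + T))) := rfl
    have e2 : an ρ lam γ (n + 1) Z = if A' ≤ γ * (γ * S) then 0 else A' / (1 + γ * S) := rfl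
    constructor
    · rw [e1]
      split_ifs with h
      · exact han _ _
      · push Not at h
        have h2 : ¬ A' ≤ γ * (γ * S) := by
          push Not
          calc γ * (γ * S) ≤ γ * T := mul_le_mul_of_nonneg_left hTS hγ.le
            _ < A := h
            _ ≤ A' := hAA
        rw [e2, if_neg h2]
        have h3 : 0 < 1 + γ * S := by nlinarith
        exact div_le_div₀ (hA0.le.trans hAA) hAA h3 (by linarith)
    · have h1 : b⁻¹ * ((1 - γ) * T / (1 + T)) ≤ (TA b lam γ (n + 1) Z).2 := by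
        rw [e1]
        split_ifs with h
        · exact mul_le_mul_of_nonneg_left (div_le_div_of_nonneg_right (by linarith) (by linarith))
            hbi0.le
        · exact mul_le_mul_of_nonneg_left (div_le_div_of_nonneg_right (by nlinarith) (by linarith))
            hbi0.le
      refine le_trans ?_ h1
      have h2 : ww ρ Z ≤ ρ * min S 1 := by
        rw [hrec Z]
        refine mul_le_mul_of_nonneg_left (le_min ?_ ?_) hρ0.le
        · exact FrogGW.W591.one_sub_prod_le _ _ fun i => hww _
        · have : 0 ≤ ∏ i ∈ Finset.range k, (1 - ww ρ (sh i Z)) :=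
            Finset.prod_nonneg fun i _ => by linarith [(hww (sh i Z)).2]
          linarith
      set m := min S 1 with hm
      have hm0 : 0 ≤ m := le_min hS0 zero_le_one
      have hm1 : m ≤ 1 := min_le_right _ _
      have hmS : m ≤ S := min_le_left _ _
      have hTm : γ * m ≤ T := le_trans (mul_le_mul_of_nonneg_left hmS hγ.le) hTS
      have h7 : (1 - γ) * (γ * m) / (1 + γ) ≤ (1 - γ) * T / (1 + T) := by
          rw [div_le_div_iff₀ (by linarith) (by linarith)]
          have h4 : γ * m * (1 + T) ≤ T * (1 + γ) := by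
            have h5 : γ * m * T ≤ γ * T := by
              have : m * T ≤ 1 * T := mul_le_mul_of_nonneg_right hm1 hT0
              nlinarith
            nlinarith
          have h6 : 0 ≤ 1 - γ := by linarith
          calc (1 - γ) * (γ * m) * (1 + T) = (1 - γ) * (γ * m * (1 + T)) := by ring
            _ ≤ (1 - γ) * (T * (1 + γ)) := mul_le_mul_of_nonneg_left h4 h6
            _ = (1 - γ) * T * (1 + γ) := by ring
      have h8 : 0 ≤ (1 - γ) * (γ * m) / (1 + γ) :=
        div_nonneg (mul_nonneg (by linarith) (mul_nonneg hγ.le hm0)) (by linarith)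
      calc γ * ww ρ Z ≤ γ * (ρ * m) := mul_le_mul_of_nonneg_left h2 hγ.le
        _ = B⁻¹ * ((1 - γ) * (γ * m) / (1 + γ)) := by
          rw [hρ]
          field_simp
        _ ≤ b⁻¹ * ((1 - γ) * (γ * m) / (1 + γ)) := mul_le_mul_of_nonneg_right hbi h8
        _ ≤ b⁻¹ * ((1 - γ) * T / (1 + T)) := mul_le_mul_of_nonneg_left h7 hbi0.le

end FrogB
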