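import Pool.Agent.W852.FG.Stms

/-!
# The frog model with biased walks and general initial laws on Galton-Watson trees: definitions
-/

set_option autoImplicit false

namespace FrogB

open FrogGW (Env InTree Survive GW unif Rd Conf cnt sh sub lev vert cross Reach ww wn an na)
open MeasureTheory ProbabilityTheory
open scoped ENNReal NNReal Classical

/-- One step of the random walk of bias `b` on the tree of `Z`, driven by a number `x`; when `x` is
uniform on `[0, 1)` the walk at a vertex with `k` children which is not the root moves to each child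
with probability `1 / (k + b)` and to the parent with probability `b / (k + b)`; at the root it
moves to a uniformly chosen child. -/
noncomputable def step (b : ℝ) (Z : Env) : List ℕ → ℝ → List ℕ
  | [], x => [min ⌊x * (Z [] : ℝ)⌋₊ (Z [] - 1)]
  | i :: v, x =>
    if ⌊x * ((Z (i :: v) : ℝ) + b)⌋₊ < Z (i :: v)
      then ⌊x * ((Z (i :: v) : ℝ) + b)⌋₊ :: i :: v else v

/-- The position after `k` steps of the walk from `x` driven by the sequence `u`. -/
noncomputable def walk (b : ℝ) (Z : Env) (x : List ℕ) (u : ℕ → ℝ) : ℕ → List ℕ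
  | 0 => x
  | k + 1 => step b Z (walk b Z x u k) (u k)

/-- The law of the randomness at a vertex: a number of particles of law `ν`, independent walks. -/
noncomputable def vertexLaw (ν : Measure ℕ) : Measure Rd :=
  ν.prod (Measure.infinitePi fun _ : ℕ => Measure.infinitePi fun _ : ℕ => unif)

/-- The law of the frog model: independent randomness at all vertices, the number of particles
sleeping at `v` has law `η v`. -/
noncomputable def FM (η : List ℕ → Measure ℕ) : Measure Conf :=
  Measure.infinitePi fun v : List ℕ => vertexLaw (η v)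

/-- The vertices that are visited by active particles. -/
inductive Active (b : ℝ) (Z : Env) (ω : Conf) : List ℕ → Prop
  | root : Active b Z ω []
  | wake {x y : List ℕ} (j k : ℕ) : Active b Z ω x → j < cnt x (ω x) →
      walk b Z x ((ω x).2 j) k = y → Active b Z ω y

/-- The visits to the root by active particles: all `((x, j), k)` such that `x` is visited by an
active particle and the particle number `j` starting at `x` is at the root after `k` steps. -/
def Visits (b : ℝ) (Z : Env) (ω : Conf) : Set ((List ℕ × ℕ) × ℕ) :=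
  {q | Active b Z ω q.1.1 ∧ q.1.2 < cnt q.1.1 (ω q.1.1) ∧
    walk b Z q.1.1 ((ω q.1.1).2 q.1.2) q.2 = []}

instance vertexLaw_prob (ν : Measure ℕ) [IsProbabilityMeasure ν] :
    IsProbabilityMeasure (vertexLaw ν) := by
  unfold vertexLaw; infer_instance

instance FM_prob (η : List ℕ → Measure ℕ) [∀ v, IsProbabilityMeasure (η v)] :
    IsProbabilityMeasure (FM η) := by
  unfold FM; infer_instance

/-! ## Auxiliary definitions -/

/-- The walk from `x` driven by `u` visits `y` within `m` steps, staying below level `N`. -/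
def Hit (b : ℝ) (Z : Env) (N : ℕ) : ℕ → List ℕ → (ℕ → ℝ) → List ℕ → Prop
  | 0, x, _, y => x.length < N ∧ x = y
  | m + 1, x, u, y => x.length < N ∧
      (x = y ∨ Hit b Z N m (step b Z x (u 0)) (fun k => u (k + 1)) y)

/-- Number of root visits plus the weights of the outward crossings, `m` steps, killed at
level `N`. -/
noncomputable def score (b : ℝ) (Z : Env) (N : ℕ) (β : List ℕ → ℝ≥0∞) :
    ℕ → List ℕ → (ℕ → ℝ) → ℝ≥0∞
  | 0, _, _ => 0
  | m + 1, x, u => (if x = [] then 1 else 0) + cross β x (step b Z x (u 0)) +
      (if (step b Z x (u 0)).length < N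
        then score b Z N β m (step b Z x (u 0)) (fun k => u (k + 1)) else 0)

/-- The activation process with walks cut after `N` steps and killed at level `N`. -/
inductive ActiveN (b : ℝ) (Z : Env) (N : ℕ) (ω : Conf) : List ℕ → Prop
  | root : ActiveN b Z N ω []
  | wake {x y : List ℕ} (j : ℕ) : ActiveN b Z N ω x → j < cnt x (ω x) →
      Hit b Z N N x ((ω x).2 j) y → ActiveN b Z N ω y

/-- The number of root visits in `m` steps, killed at level `N`. -/
noncomputable def vis (b : ℝ) (Z : Env) (N m : ℕ) (x : List ℕ) (u : ℕ → ℝ) : ℝ≥0∞ :=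
  score b Z N (fun _ => 0) m x u

/-- The number of root visits of the active particles of the cut process. -/
noncomputable def VN (b : ℝ) (Z : Env) (N : ℕ) (ω : Conf) : ℝ≥0∞ :=
  ∑ z ∈ vert Z N, if ActiveN b Z N ω z then
    ∑ j ∈ Finset.range (cnt z (ω z)), vis b Z N (N + 1) z ((ω z).2 j) else 0

/-- The recursion for the pair (additive coefficient, defect divided by the bias) of a tree cut at
level `n`. -/
noncomputable def TA (b lam γ : ℝ) : ℕ → Env → ℝ × ℝ
  | 0, _ => (0, b⁻¹)
  | n + 1, Z =>
    if lam + ∑ i ∈ Finset.range (Z []), (TA b lam γ n (sh i Z)).1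
        ≤ γ * ∑ i ∈ Finset.range (Z []), (TA b lam γ n (sh i Z)).2
    then (0, b⁻¹ * (((∑ i ∈ Finset.range (Z []), (TA b lam γ n (sh i Z)).2) -
        (lam + ∑ i ∈ Finset.range (Z []), (TA b lam γ n (sh i Z)).1)) /
          (1 + ∑ i ∈ Finset.range (Z []), (TA b lam γ n (sh i Z)).2)))
    else ((lam + ∑ i ∈ Finset.range (Z []), (TA b lam γ n (sh i Z)).1) /
          (1 + ∑ i ∈ Finset.range (Z []), (TA b lam γ n (sh i Z)).2),
        b⁻¹ * ((∑ i ∈ Finset.range (Z []), (TA b lam γ n (sh i Z)).2) /
          (1 + ∑ i ∈ Finset.range (Z []), (TA b lam γ n (sh i Z)).2)))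

/-- the additive coefficient at the vertex `u` of the tree cut at level `N`. -/
noncomputable def AA (b lam γ : ℝ) (N : ℕ) (Z : Env) (u : List ℕ) : ℝ :=
  lam + ∑ i ∈ Finset.range (Z u), (TA b lam γ (N - 1 - u.length) (sub (i :: u) Z)).1

/-- the defect, divided by the bias, at the vertex `u` of the tree cut at level `N`. -/
noncomputable def TH (b lam γ : ℝ) (N : ℕ) (Z : Env) (u : List ℕ) : ℝ :=
  ∑ i ∈ Finset.range (Z u), (TA b lam γ (N - 1 - u.length) (sub (i :: u) Z)).2

/-- The trigger vertices. -/
def trig (b lam γ : ℝ) (N : ℕ) (Z : Env) (u : List ℕ) : Prop :=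
  u ≠ [] ∧ u.length < N ∧ AA b lam γ N Z u ≤ γ * TH b lam γ N Z u

/-- The trigger of a vertex: its nearest ancestor (or itself) that is a trigger, or the root. -/
noncomputable def tv (b lam γ : ℝ) (N : ℕ) (Z : Env) : List ℕ → List ℕ
  | [] => []
  | i :: u => if trig b lam γ N Z (i :: u) then i :: u else tv b lam γ N Z u

/-- The potential. -/
noncomputable def pot (b lam γ : ℝ) (N : ℕ) (Z : Env) : List ℕ → ℝ
  | [] => (Z [] : ℝ) / (b * TH b lam γ N Z [])
  | i :: u => pot b lam γ N Z u / (1 + TH b lam γ N Z (i :: u))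

/-- The weight of a trigger. -/
noncomputable def bet (b lam γ : ℝ) (N : ℕ) (Z : Env) (t : List ℕ) : ℝ :=
  if trig b lam γ N Z t then AA b lam γ N Z t * pot b lam γ N Z t else 0

/-- The directed edges of the comparison process. -/
def edge (b lam γ : ℝ) (N : ℕ) (Z : Env) (x y : List ℕ) (r : Rd) : Prop :=
  ¬ (tv b lam γ N Z y <:+ x) ∧ ∃ j, j < cnt x r ∧ Hit b Z N N x (r.2 j) (tv b lam γ N Z y)

/-- The block of the root. -/
noncomputable def blockRoot (b lam γ : ℝ) (N : ℕ) (Z : Env) : Finset (List ℕ) :=
  (vert Z N).filter fun y => tv b lam γ N Z y = []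

end FrogB
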