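import Pool.Agent.Y986.FB.Score
import Pool.Agent.W605.FG.Dom

namespace FrogB.Dom

open FrogGW (Env InTree Survive GW unif Rd Conf cnt sh sub lev vert cross Reach ww wn an na)
open scoped Classical

open Pool.Agent.W605.FG (mem_lev mem_vert)

theorem step_tree {b : ℝ} {Z : Env} (hZ : 1 ≤ Z []) {x : List ℕ} (hx : InTree Z x) (s : ℝ) :
    InTree Z (step b Z x s) := by
  rcases x with _ | ⟨i, v⟩
  · simp only [step]
    refine ⟨trivial, ?_⟩
    have : min ⌊s * (Z [] : ℝ)⌋₊ (Z [] - 1) ≤ Z [] - 1 := min_le_right _ _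
    omega
  · simp only [step]
    split_ifs with h
    · exact ⟨hx, h⟩
    · exact hx.1

theorem hit_tree {b : ℝ} {Z : Env} (hZ : 1 ≤ Z []) {N : ℕ} : ∀ (m : ℕ) (x : List ℕ) (u : ℕ → ℝ)
    (y : List ℕ), Hit b Z N m x u y → y.length < N ∧ (InTree Z x → InTree Z y)
  | 0, x, u, y, h => by
    obtain ⟨h1, rfl⟩ := h
    exact ⟨h1, id⟩
  | m + 1, x, u, y, h => by
    obtain ⟨h1, h2⟩ := h
    rcases h2 with rfl | h2
    · exact ⟨h1, id⟩
    · obtain ⟨h3, h4⟩ := hit_tree hZ m _ _ _ h2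
      exact ⟨h3, fun hx => h4 (step_tree hZ hx _)⟩

theorem hit_lt {b : ℝ} {Z : Env} {N : ℕ} : ∀ (m : ℕ) (x : List ℕ) (u : ℕ → ℝ) (y : List ℕ),
    Hit b Z N m x u y → x.length < N
  | 0, _, _, _, h => h.1
  | _ + 1, _, _, _, h => h.1

theorem hit_self {b : ℝ} {Z : Env} {N : ℕ} : ∀ (m : ℕ) (x : List ℕ) (u : ℕ → ℝ), x.length < N →
    Hit b Z N m x u x
  | 0, _, _, h => ⟨h, rfl⟩
  | _ + 1, _, _, h => ⟨h, Or.inl rfl⟩

/-- the key fact: to reach `y` the walk has to visit the ancestors of `y` that are not ancestors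
of the starting point -/
theorem hit_suffix {b : ℝ} {Z : Env} {N : ℕ} : ∀ (m : ℕ) (x : List ℕ) (u : ℕ → ℝ) (y t : List ℕ),
    Hit b Z N m x u y → t <:+ y → ¬ t <:+ x → Hit b Z N m x u t
  | 0, x, u, y, t, h, h1, h2 => by
    obtain ⟨_, rfl⟩ := h
    exact absurd h1 h2
  | m + 1, x, u, y, t, h, h1, h2 => by
    obtain ⟨h3, h4⟩ := h
    rcases h4 with rfl | h4
    · exact absurd h1 h2
    · refine ⟨h3, Or.inr ?_⟩
      by_cases h5 : t <:+ step b Z x (u 0)
      · rcases step_cases b Z x (u 0) with ⟨a, ha⟩ | ⟨i, hi⟩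
        · rw [ha, List.suffix_cons_iff] at h5
          rcases h5 with h5 | h5
          · rw [h5, ← ha]
            exact hit_self m _ _ (hit_lt m _ _ _ h4)
          · exact absurd h5 h2
        · exfalso
          apply h2
          rw [hi]
          exact h5.trans (List.suffix_cons _ _)
      · exact hit_suffix m _ _ y t h4 h1 h5

theorem tv_suffix (b lam γ : ℝ) (N : ℕ) (Z : Env) : ∀ y : List ℕ, tv b lam γ N Z y <:+ y
  | [] => by
    unfold tv
    exact List.suffix_refl _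
  | i :: u => by
    unfold tv
    split_ifs with h
    · exact List.suffix_refl _
    · exact (tv_suffix b lam γ N Z u).trans (List.suffix_cons _ _)

theorem dom (b lam γ : ℝ) (Z : Env) (N : ℕ) (ω : Conf) (y : List ℕ) (hZ : 1 ≤ Z [])
    (hN : 1 ≤ N) (hy : ActiveN b Z N ω y) :
    y ∈ vert Z N ∧ Reach (blockRoot b lam γ N Z) (vert Z N) (edge b lam γ N Z) ω y := by
  have main : y ∈ vert Z N ∧ Reach (blockRoot b lam γ N Z) (vert Z N) (edge b lam γ N Z) ω y ∧
      ∀ t : List ℕ, t <:+ y → t ≠ [] → ∃ x, Reach (blockRoot b lam γ N Z) (vert Z N)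
        (edge b lam γ N Z) ω x ∧ ¬ t <:+ x ∧ ∃ j, j < cnt x (ω x) ∧
          Hit b Z N N x ((ω x).2 j) t := by
    induction hy with
    | root =>
      have h1 : ([] : List ℕ) ∈ vert Z N := (mem_vert Z N []).mpr ⟨trivial, hN⟩
      refine ⟨h1, Reach.start ?_, ?_⟩
      · unfold blockRoot
        rw [Finset.mem_filter]
        exact ⟨h1, rfl⟩
      · intro t ht ht0
        exact absurd (List.suffix_nil.mp ht) ht0
    | @wake x y j hx hj hhit ih =>
      obtain ⟨hxv, hxr, hx3⟩ := ih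
      have hxt := ((mem_vert Z N x).mp hxv).1
      obtain ⟨hyl, hyt⟩ := hit_tree hZ N x _ y hhit
      have hyv : y ∈ vert Z N := (mem_vert Z N y).mpr ⟨hyt hxt, hyl⟩
      have h3 : ∀ t : List ℕ, t <:+ y → t ≠ [] → ∃ x, Reach (blockRoot b lam γ N Z) (vert Z N)
          (edge b lam γ N Z) ω x ∧ ¬ t <:+ x ∧ ∃ j, j < cnt x (ω x) ∧
            Hit b Z N N x ((ω x).2 j) t := by
        intro t ht ht0
        by_cases htx : t <:+ x
        · exact hx3 t htx ht0
        · exact ⟨x, hxr, htx, j, hj, hit_suffix N x _ y t hhit ht htx⟩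
      refine ⟨hyv, ?_, h3⟩
      by_cases ht : tv b lam γ N Z y = []
      · refine Reach.start ?_
        unfold blockRoot
        rw [Finset.mem_filter]
        exact ⟨hyv, ht⟩
      · obtain ⟨x', hx', h4, j', hj', h5⟩ := h3 _ (tv_suffix b lam γ N Z y) ht
        exact Reach.step hx' hyv ⟨h4, j', hj', h5⟩
  exact ⟨main.1, main.2.1⟩

end FrogB.Dom
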