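import Pool.Agent.W852.FG.Moment

/-!
# The first moment of the additive coefficients, for every percolation parameter
-/

namespace FrogB

open FrogGW
open MeasureTheory ProbabilityTheory Filter
open scoped ENNReal NNReal Classical

theorem moment (hTr : TaskTree) (hTW : TaskW) (hWpos : TaskWpos) (hGF : TaskGF)
    (hZero : TaskZero) (hKap : TaskKappa) (hInd : TaskInd) (hMP : TaskMomP)
    (hMX : TaskMomX) (p : Measure ℕ) [IsProbabilityMeasure p] (γ ρ : ℝ) (hg : 0 < γ)
    (hg1 : γ < 1) (hρ0 : 0 < ρ) (hρ1 : ρ < 1)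
    (hmean : 1 < ENNReal.ofReal ρ * ∫⁻ k, (k : ℝ≥0∞) ∂p) :
    ∃ lam : ℝ≥0, 0 < lam ∧ ∃ C : ℝ≥0, ∀ n,
      ∫⁻ Z, ENNReal.ofReal (an ρ lam γ n Z) ∂(GW p) ≤ C := by
  have hmean1 : 1 < ∫⁻ k, (k : ℝ≥0∞) ∂p := by
    refine hmean.trans_le ?_
    calc ENNReal.ofReal ρ * ∫⁻ k, (k : ℝ≥0∞) ∂p ≤ 1 * ∫⁻ k, (k : ℝ≥0∞) ∂p := by
          refine mul_le_mul_left ?_ _
          exact ENNReal.ofReal_le_one.2 hρ1.le
      _ = _ := one_mul _
  obtain ⟨_, hwm, _, hw01, hwrec, hanm⟩ := hTW ρ hρ0 hρ1
  set μ := GW p with hμ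
  set w := ww ρ with hwdef
  set m := Measure.infinitePi fun _ : ℕ => μ with hm
  have hwpos : 0 < ∫⁻ Z, ENNReal.ofReal (w Z) ∂μ := hWpos p ρ hρ0 hρ1 hmean
  obtain ⟨hz1, hzfix⟩ := hZero p ρ hρ0 hρ1 hwpos
  set z := μ {Z | w Z = 0} with hz
  obtain ⟨hf1, _⟩ := hGF p hmean1 z hz1 hzfix
  set f1 := ∑' k, p {k} * ((k : ℝ≥0∞) * z ^ (k - 1)) with hf1def
  obtain ⟨r, hr, hkap⟩ := hKap Env μ w γ hwm hw01 hg hwpos p hmean1 hzfix
  set κ := ∑' k, p {k} * ((k : ℝ≥0∞) * mk μ w γ (2 * r) (k - 1)) with hκ
  obtain ⟨C', hC'⟩ := hMP Env μ w γ hwm hw01 hg hwpos p r hr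
  -- δ and n0
  obtain ⟨δ, n0, θ, hδ, hθ1, hθ⟩ : ∃ (δ : ℝ≥0) (n0 : ℕ) (θ : ℝ≥0), 0 < δ ∧ θ < 1 ∧
      (1 + (δ : ℝ≥0∞)) * κ + C' * p {k | n0 ≤ k} ≤ θ := by
    have hκt : κ ≠ ⊤ := (hkap.trans ENNReal.one_lt_top).ne
    obtain ⟨κ', hκ'⟩ : ∃ κ' : ℝ≥0, (κ' : ℝ≥0∞) = κ := ⟨κ.toNNReal, ENNReal.coe_toNNReal hκt⟩
    rw [← hκ'] at hkap ⊢
    have hκ1 : κ' < 1 := by exact_mod_cast hkap
    have hd : 0 < (1 - κ') / 4 := by
      have : 0 < 1 - κ' := tsub_pos_of_lt hκ1
      positivity
    -- tail of p
    have htail : Tendsto (fun n : ℕ => p {k | n ≤ k}) atTop (nhds 0) := by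
      have h1 : Tendsto (fun n : ℕ => p {k | n ≤ k}) atTop (nhds (p (⋂ n : ℕ, {k | n ≤ k}))) := by
        refine tendsto_measure_iInter_atTop (fun n => ?_) ?_ ⟨0, measure_ne_top _ _⟩
        · exact (MeasurableSet.of_discrete).nullMeasurableSet
        · intro n n' h k hk
          exact le_trans h hk
      have h2 : (⋂ n : ℕ, {k : ℕ | n ≤ k}) = ∅ := by
        ext k
        simp only [Set.mem_iInter, Set.mem_ofPred_eq, Set.mem_empty_iff_false, iff_false, not_forall]
        exact ⟨k + 1, by omega⟩
      rwa [h2, measure_empty] at h1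
    have h3 : Tendsto (fun n : ℕ => (C' : ℝ≥0∞) * p {k | n ≤ k}) atTop (nhds ((C' : ℝ≥0∞) * 0)) :=
      ENNReal.Tendsto.const_mul htail (Or.inr ENNReal.coe_ne_top)
    rw [mul_zero] at h3
    have hd' : (0 : ℝ≥0∞) < (((1 - κ') / 4 : ℝ≥0) : ℝ≥0∞) := by exact_mod_cast hd
    obtain ⟨n0, hn0⟩ := ((tendsto_order.1 h3).2 _ hd').exists
    refine ⟨(1 - κ') / 4, n0, κ' + (1 - κ') / 4 + (1 - κ') / 4, hd, ?_, ?_⟩
    · have h4 : ((κ' + (1 - κ') / 4 + (1 - κ') / 4 : ℝ≥0) : ℝ) < 1 := by
        have h5 : (κ' : ℝ) < 1 := by exact_mod_cast hκ1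
        push_cast [NNReal.coe_sub hκ1.le]
        linarith
      exact_mod_cast h4
    · push_cast
      refine add_le_add ?_ ?_
      · rw [add_mul, one_mul]
        refine add_le_add le_rfl ?_
        calc (1 - (κ' : ℝ≥0∞)) / 4 * (κ' : ℝ≥0∞)
            ≤ (1 - (κ' : ℝ≥0∞)) / 4 * 1 := by
              refine mul_le_mul_right ?_ _
              exact_mod_cast hκ1.le
          _ = _ := by rw [mul_one]
      · have := hn0.le
        push_cast at this
        exact this
  obtain ⟨C, hC⟩ := hC' δ n0 hδ
  -- constants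
  obtain ⟨s, hs0, hs1, hsC⟩ : ∃ s : ℝ, 0 < s ∧ s ≤ 1 ∧ (C : ℝ) * s ≤ (1 - θ) / 2 := by
    have h1 : (θ : ℝ) < 1 := by exact_mod_cast hθ1
    refine ⟨min 1 ((1 - (θ : ℝ)) / (2 * ((C : ℝ) + 1))), ?_, min_le_left _ _, ?_⟩
    · refine lt_min one_pos (div_pos (by linarith) (by positivity))
    · calc (C : ℝ) * min 1 ((1 - (θ : ℝ)) / (2 * ((C : ℝ) + 1)))
          ≤ ((C : ℝ) + 1) * ((1 - (θ : ℝ)) / (2 * ((C : ℝ) + 1))) := by
            refine mul_le_mul (by linarith) (min_le_right _ _) ?_ (by positivity)
            exact le_min zero_le_one (div_nonneg (by linarith) (by positivity))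
        _ = (1 - θ) / 2 := by
            have : (C : ℝ) + 1 ≠ 0 := by positivity
            field_simp
  obtain ⟨B1, hB10, hB1⟩ := ptH r hr (s / 2) (by linarith)
  obtain ⟨ξ, hξ0, hξ1, hξB⟩ : ∃ ξ : ℝ, 0 < ξ ∧ ξ ≤ 1 ∧ B1 * ξ ≤ s / 2 := by
    refine ⟨s / (2 * (B1 + 1)), by positivity, ?_, ?_⟩
    · rw [div_le_one (by positivity)]
      nlinarith
    · rw [mul_div_assoc', div_le_div_iff₀ (by positivity) (by norm_num)]
      nlinarith
  obtain ⟨B, hB⟩ := hMX Env μ w γ hwm hw01 hg p r hr
  set ε2 : ℝ≥0 := Real.toNNReal (ξ / 4) with hε2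
  have hε2pos : 0 < ε2 := Real.toNNReal_pos.2 (by linarith)
  set η : ℝ≥0 := Real.toNNReal (ξ / (4 * (B ε2 + 1))) with hη
  have hηpos : 0 < η := Real.toNNReal_pos.2 (by positivity)
  obtain ⟨D, hD⟩ := hB η hηpos
  set K : ℝ := min 1 (ξ / (4 * (D + 1))) with hK
  have hK0 : 0 < K := lt_min one_pos (by positivity)
  have hK1 : K ≤ 1 := min_le_left _ _
  have hKD : (D : ℝ) * K ≤ ξ / 4 := by
    calc (D : ℝ) * K ≤ (D + 1) * (ξ / (4 * (D + 1))) :=
          mul_le_mul (by linarith) (min_le_right _ _) hK0.le (by positivity)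
      _ = ξ / 4 := by
          have : (D : ℝ) + 1 ≠ 0 := by positivity
          field_simp
  have hf1t : f1 ≠ ⊤ := (hf1.trans ENNReal.one_lt_top).ne
  have hf1r : f1.toReal < 1 := by
    have := (ENNReal.toReal_lt_toReal hf1t ENNReal.one_ne_top).2 hf1
    simpa using this
  have hf10 : 0 ≤ f1.toReal := ENNReal.toReal_nonneg
  obtain ⟨t, ht0, ht1, ht2, ht3⟩ : ∃ t : ℝ, 0 < t ∧ t ≤ 1 ∧ (C : ℝ) * t ≤ (1 - θ) / 2 ∧
      t ≤ ξ * (1 - f1.toReal) / 4 := by
    refine ⟨min s (ξ * (1 - f1.toReal) / 4), lt_min hs0 ?_, (min_le_left _ _).trans hs1, ?_,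
      min_le_right _ _⟩
    · have : 0 < 1 - f1.toReal := by linarith
      positivity
    · refine le_trans (mul_le_mul_of_nonneg_left (min_le_left _ _) C.coe_nonneg) hsC
  set lam : ℝ≥0 := Real.toNNReal (K * t) with hlam
  have hlamr : (lam : ℝ) = K * t := Real.coe_toNNReal _ (by positivity)
  have hlampos : 0 < lam := Real.toNNReal_pos.2 (by positivity)
  set KK : ℝ≥0 := Real.toNNReal K with hKK
  have hKKr : (KK : ℝ) = K := Real.coe_toNNReal _ hK0.le
  have hKKpos : 0 < KK := Real.toNNReal_pos.2 hK0
  refine ⟨lam, hlampos, Real.toNNReal (ξ * K), ?_⟩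
  -- integrals over GW through the branching property
  have hbr : ∀ F : ℕ → (ℕ → Env) → ℝ≥0∞, (∀ k, Measurable (F k)) →
      ∫⁻ Z, F (Z []) (fun i => sh i Z) ∂μ = ∫⁻ k, ∫⁻ Y, F k Y ∂m ∂p := by
    intro F hF
    have hF' : Measurable (fun q : ℕ × (ℕ → Env) => F q.1 q.2) :=
      measurable_from_prod_countable_right hF
    rw [← lintegral_prod _ hF'.aemeasurable]
    exact (hTr p).lintegral_comp hF'
  -- the induction
  have main : ∀ n, (∫⁻ Z, ENNReal.ofReal (an ρ lam γ n Z ^ (2 * r)) ∂μ ≤
        ENNReal.ofReal (K ^ (2 * r))) ∧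
      (∫⁻ Z, ENNReal.ofReal (an ρ lam γ n Z) ∂μ ≤ ENNReal.ofReal (ξ * K)) ∧
      (∫⁻ Z in {Z | w Z = 0}, ENNReal.ofReal (an ρ lam γ n Z) ∂μ ≤
        ENNReal.ofReal (lam / (1 - f1.toReal))) := by
    intro n
    induction n with
    | zero =>
      simp only [an, ENNReal.ofReal_zero, lintegral_zero]
      refine ⟨?_, zero_le, zero_le⟩
      rw [zero_pow (by omega), ENNReal.ofReal_zero, lintegral_zero]
      exact zero_le
    | succ n ih =>
      obtain ⟨ihy, ihx, ih0⟩ := ih
      set a := an ρ (lam : ℝ) γ n with ha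
      have ham : Measurable a := hanm lam γ n
      have ha0 : ∀ Z, 0 ≤ a Z := an_nonneg hTW hρ0 hρ1 lam.coe_nonneg hg.le n
      have hw0 : ∀ Z, 0 ≤ w Z := fun Z => (hw01 Z).1
      have hsum : ∀ (g : Env → ℝ), Measurable g → ∀ k, Measurable fun Y : ℕ → Env =>
          ∑ i ∈ Finset.range k, g (Y i) := by
        intro g hgm k
        exact Finset.measurable_sum _ fun i _ => hgm.comp (measurable_pi_apply i)
      have hWm : ∀ k, Measurable (Wf (lam : ℝ) γ a w k) := by
        intro k
        unfold Wf
        exact (measurable_const.add (hsum a ham k)).div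
          (measurable_const.add (measurable_const.mul (hsum w hwm k)))
      have hnm : ∀ k, Measurable (na (lam : ℝ) γ a w k) := by
        intro k
        unfold na
        refine Measurable.ite ?_ measurable_const (hWm k)
        exact measurableSet_le (measurable_const.add (hsum a ham k))
          (measurable_const.mul (measurable_const.mul (hsum w hwm k)))
      -- moment of order r
      have hh : ∫⁻ Z, ENNReal.ofReal (a Z ^ r) ∂μ ≤ ENNReal.ofReal (s * K ^ r) := by
        calc ∫⁻ Z, ENNReal.ofReal (a Z ^ r) ∂μ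
            ≤ ∫⁻ Z, (ENNReal.ofReal (s / 2 * K⁻¹ ^ r) * ENNReal.ofReal (a Z ^ (2 * r)) +
                ENNReal.ofReal (B1 * K ^ (r - 1)) * ENNReal.ofReal (a Z)) ∂μ := by
              refine lintegral_mono fun Z => ?_
              rw [← ENNReal.ofReal_mul (by positivity), ← ENNReal.ofReal_mul (by positivity),
                ← ENNReal.ofReal_add (by have := ha0 Z; positivity)
                  (by have := ha0 Z; positivity)]
              refine ENNReal.ofReal_le_ofReal ?_
              have := hB1 K (a Z) hK0 (ha0 Z)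
              linarith [mul_assoc B1 (K ^ (r - 1)) (a Z)]
          _ = ENNReal.ofReal (s / 2 * K⁻¹ ^ r) * ∫⁻ Z, ENNReal.ofReal (a Z ^ (2 * r)) ∂μ +
                ENNReal.ofReal (B1 * K ^ (r - 1)) * ∫⁻ Z, ENNReal.ofReal (a Z) ∂μ := by
              rw [lintegral_add_left, lintegral_const_mul, lintegral_const_mul]
              · exact ham.ennreal_ofReal
              · exact (ham.pow_const _).ennreal_ofReal
              · exact ((ham.pow_const _).ennreal_ofReal).const_mul _
          _ ≤ ENNReal.ofReal (s / 2 * K⁻¹ ^ r) * ENNReal.ofReal (K ^ (2 * r)) +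
                ENNReal.ofReal (B1 * K ^ (r - 1)) * ENNReal.ofReal (ξ * K) :=
              add_le_add (mul_le_mul_right ihy _) (mul_le_mul_right ihx _)
          _ ≤ ENNReal.ofReal (s * K ^ r) := by
              rw [← ENNReal.ofReal_mul (by positivity), ← ENNReal.ofReal_mul (by positivity),
                ← ENNReal.ofReal_add (by positivity) (by positivity)]
              refine ENNReal.ofReal_le_ofReal ?_
              have h1 : K⁻¹ ^ r * K ^ (2 * r) = K ^ r := by
                rw [two_mul, pow_add, ← mul_assoc, ← mul_pow, inv_mul_cancel₀ hK0.ne', one_pow,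
                  one_mul]
              have h2 : K ^ (r - 1) * K = K ^ r := by
                rw [← pow_succ]; congr 1; omega
              have h3 : s / 2 * K⁻¹ ^ r * K ^ (2 * r) + B1 * K ^ (r - 1) * (ξ * K) =
                  (s / 2 + B1 * ξ) * K ^ r := by
                rw [mul_assoc (s / 2), h1]
                have : B1 * K ^ (r - 1) * (ξ * K) = B1 * ξ * (K ^ (r - 1) * K) := by ring
                rw [this, h2]; ring
              rw [h3]
              exact mul_le_mul_of_nonneg_right (by linarith) (by positivity)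
      -- the moment of W
      have hWW : ∫⁻ k, ∫⁻ Y, ENNReal.ofReal (Wf lam γ a w k Y ^ (2 * r)) ∂m ∂p ≤
          ENNReal.ofReal (K ^ (2 * r)) := by
        refine (hC a lam ham ha0).trans ?_
        calc ((1 + (δ : ℝ≥0∞)) * κ + C' * p {k | n0 ≤ k}) *
                ∫⁻ x, ENNReal.ofReal (a x ^ (2 * r)) ∂μ +
              C * ((lam : ℝ≥0∞) ^ (2 * r) + (∫⁻ x, ENNReal.ofReal (a x ^ r) ∂μ) ^ 2)
            ≤ θ * ENNReal.ofReal (K ^ (2 * r)) +
              C * ((lam : ℝ≥0∞) ^ (2 * r) + (ENNReal.ofReal (s * K ^ r)) ^ 2) := by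
              refine add_le_add (mul_le_mul' hθ ihy) (mul_le_mul_right ?_ _)
              exact add_le_add le_rfl (pow_le_pow_left₀ zero_le hh 2)
          _ = ENNReal.ofReal (θ * K ^ (2 * r) + C * ((lam : ℝ) ^ (2 * r) + (s * K ^ r) ^ 2)) := by
              rw [ENNReal.ofReal_add (by positivity) (by positivity),
                ENNReal.ofReal_mul θ.coe_nonneg, ENNReal.ofReal_mul C.coe_nonneg,
                ENNReal.ofReal_add (by positivity) (by positivity),
                ENNReal.ofReal_pow lam.coe_nonneg, ENNReal.ofReal_pow (by positivity) 2,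
                ENNReal.ofReal_coe_nnreal, ENNReal.ofReal_coe_nnreal, ENNReal.ofReal_coe_nnreal]
          _ ≤ ENNReal.ofReal (K ^ (2 * r)) := by
              refine ENNReal.ofReal_le_ofReal ?_
              rw [hlamr, mul_pow, mul_pow, ← pow_mul, mul_comm r 2]
              have hs2 : s ^ 2 ≤ s := by nlinarith
              have ht2' : t ^ (2 * r) ≤ t := by
                calc t ^ (2 * r) ≤ t ^ 1 := pow_le_pow_of_le_one ht0.le ht1 (by omega)
                  _ = t := pow_one t
              have hKp : 0 < K ^ (2 * r) := by positivity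
              have h1 : (C : ℝ) * t ^ (2 * r) ≤ (1 - θ) / 2 :=
                (mul_le_mul_of_nonneg_left ht2' C.coe_nonneg).trans ht2
              have h2 : (C : ℝ) * s ^ 2 ≤ (1 - θ) / 2 :=
                (mul_le_mul_of_nonneg_left hs2 C.coe_nonneg).trans hsC
              nlinarith [mul_le_mul_of_nonneg_right h1 hKp.le,
                mul_le_mul_of_nonneg_right h2 hKp.le]
      have hrec : ∀ Z, an ρ (lam : ℝ) γ (n + 1) Z = na lam γ a w (Z []) (fun i => sh i Z) :=
        fun Z => rfl
      refine ⟨?_, ?_, ?_⟩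
      · simp_rw [hrec]
        rw [hbr (fun k Y => ENNReal.ofReal (na lam γ a w k Y ^ (2 * r)))
          (fun k => ((hnm k).pow_const _).ennreal_ofReal)]
        refine le_trans (lintegral_mono fun k => lintegral_mono fun Y => ?_) hWW
        have hb := na_bds lam.coe_nonneg hg.le ha0 hw0 k Y
        exact ENNReal.ofReal_le_ofReal (pow_le_pow_left₀ hb.1 hb.2 _)
      · simp_rw [hrec]
        rw [hbr (fun k Y => ENNReal.ofReal (na lam γ a w k Y))
          (fun k => (hnm k).ennreal_ofReal)]
        refine (hD a lam KK hKKpos ε2 hε2pos ham ha0).trans ?_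
        have hKinv : (KK : ℝ≥0∞)⁻¹ = ENNReal.ofReal K⁻¹ := by
          rw [ENNReal.ofReal_inv_of_pos hK0, ← hKKr, ENNReal.ofReal_coe_nnreal]
        have hf1c : f1 = ENNReal.ofReal f1.toReal := (ENNReal.ofReal_toReal hf1t).symm
        have h1f : 0 < 1 - f1.toReal := by linarith
        calc (lam : ℝ≥0∞) + f1 * (∫⁻ x in {x | w x = 0}, ENNReal.ofReal (a x) ∂μ) +
              ((ε2 : ℝ≥0∞) * (KK : ℝ≥0∞)⁻¹ ^ (2 * r - 1) + D) *
                (∫⁻ k, ∫⁻ Y, ENNReal.ofReal (Wf lam γ a w k Y ^ (2 * r)) ∂m ∂p) +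
              B ε2 * KK * η
            ≤ (lam : ℝ≥0∞) + f1 * ENNReal.ofReal (lam / (1 - f1.toReal)) +
              ((ε2 : ℝ≥0∞) * (KK : ℝ≥0∞)⁻¹ ^ (2 * r - 1) + D) * ENNReal.ofReal (K ^ (2 * r)) +
              B ε2 * KK * η := by
              refine add_le_add (add_le_add (add_le_add le_rfl (mul_le_mul_right ih0 _)) ?_) le_rfl
              exact mul_le_mul_right hWW _
          _ = ENNReal.ofReal ((lam : ℝ) + f1.toReal * (lam / (1 - f1.toReal)) +
              ((ε2 : ℝ) * K⁻¹ ^ (2 * r - 1) + D) * K ^ (2 * r) + B ε2 * K * η) := by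
              have q1 : ENNReal.ofReal (((ε2 : ℝ) * K⁻¹ ^ (2 * r - 1) + D) * K ^ (2 * r)) =
                  ((ε2 : ℝ≥0∞) * (KK : ℝ≥0∞)⁻¹ ^ (2 * r - 1) + D) *
                    ENNReal.ofReal (K ^ (2 * r)) := by
                rw [ENNReal.ofReal_mul (by positivity),
                  ENNReal.ofReal_add (by positivity) (by positivity),
                  ENNReal.ofReal_mul ε2.coe_nonneg,
                  ENNReal.ofReal_pow (inv_nonneg.2 hK0.le) (2 * r - 1),
                  ENNReal.ofReal_coe_nnreal, ENNReal.ofReal_coe_nnreal, ← hKinv]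
              have q2 : ENNReal.ofReal ((B ε2 : ℝ) * K * η) = (B ε2 : ℝ≥0∞) * KK * η := by
                rw [ENNReal.ofReal_mul (by positivity), ENNReal.ofReal_mul (NNReal.coe_nonneg _),
                  ENNReal.ofReal_coe_nnreal, ENNReal.ofReal_coe_nnreal]
                rfl
              have q3 : ENNReal.ofReal (f1.toReal * (lam / (1 - f1.toReal))) =
                  f1 * ENNReal.ofReal (lam / (1 - f1.toReal)) := by
                rw [ENNReal.ofReal_mul hf10, ← hf1c]
              rw [ENNReal.ofReal_add (by positivity) (by positivity),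
                ENNReal.ofReal_add (by positivity) (by positivity),
                ENNReal.ofReal_add (by positivity) (by positivity), q1, q2, q3,
                ENNReal.ofReal_coe_nnreal]
          _ ≤ ENNReal.ofReal (ξ * K) := by
              refine ENNReal.ofReal_le_ofReal ?_
              have hε2r : (ε2 : ℝ) = ξ / 4 := Real.coe_toNNReal _ (by positivity)
              have hηr : (η : ℝ) = ξ / (4 * (B ε2 + 1)) := Real.coe_toNNReal _ (by positivity)
              -- first
              have e1 : (lam : ℝ) + f1.toReal * (lam / (1 - f1.toReal)) =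
                  lam / (1 - f1.toReal) := by
                field_simp
                ring
              have e2 : (lam : ℝ) / (1 - f1.toReal) ≤ ξ * K / 4 := by
                rw [div_le_iff₀ h1f, hlamr]
                have := mul_le_mul_of_nonneg_left ht3 hK0.le
                linarith
              have e3 : K⁻¹ ^ (2 * r - 1) * K ^ (2 * r) = K := by
                have : K ^ (2 * r) = K ^ (2 * r - 1) * K := by
                  rw [← pow_succ]; congr 1; omega
                rw [this, ← mul_assoc, ← mul_pow, inv_mul_cancel₀ hK0.ne', one_pow, one_mul]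
              have e4 : (D : ℝ) * K ^ (2 * r) ≤ ξ * K / 4 := by
                have h5 : K ^ (2 * r) ≤ K ^ 2 :=
                  pow_le_pow_of_le_one hK0.le hK1 (by omega)
                calc (D : ℝ) * K ^ (2 * r) ≤ D * K ^ 2 :=
                      mul_le_mul_of_nonneg_left h5 D.coe_nonneg
                  _ = (D * K) * K := by ring
                  _ ≤ (ξ / 4) * K := mul_le_mul_of_nonneg_right hKD hK0.le
                  _ = ξ * K / 4 := by ring
              have e5 : (B ε2 : ℝ) * K * η ≤ ξ * K / 4 := by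
                rw [hηr]
                have h6 : (B ε2 : ℝ) * (ξ / (4 * (B ε2 + 1))) ≤ ξ / 4 := by
                  rw [mul_div_assoc', div_le_div_iff₀ (by positivity) (by norm_num)]
                  have := (B ε2).coe_nonneg
                  nlinarith
                nlinarith [mul_le_mul_of_nonneg_right h6 hK0.le]
              have e6 : ((ε2 : ℝ) * K⁻¹ ^ (2 * r - 1) + D) * K ^ (2 * r) =
                  ε2 * K + D * K ^ (2 * r) := by
                rw [add_mul, mul_assoc, e3]
              rw [e1, e6, hε2r]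
              linarith
      · -- the extinct part
        have h1f : 0 < 1 - f1.toReal := by linarith
        have hset : {Z : Env | w Z = 0} = {Z | ∀ i < Z [], w (sh i Z) = 0} := by
          ext Z
          simp only [Set.mem_ofPred_eq]
          rw [hwrec Z]
          constructor
          · intro h i hi
            rcases mul_eq_zero.1 h with h' | h'
            · exact absurd h' hρ0.ne'
            · by_contra hne
              have hlt : ∏ i ∈ Finset.range (Z []), (1 - w (sh i Z)) < 1 := by
                calc ∏ i ∈ Finset.range (Z []), (1 - w (sh i Z))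
                    = (1 - w (sh i Z)) * ∏ j ∈ (Finset.range (Z [])).erase i,
                        (1 - w (sh j Z)) :=
                      (Finset.mul_prod_erase _ _ (Finset.mem_range.2 hi)).symm
                  _ ≤ (1 - w (sh i Z)) * 1 := by
                      refine mul_le_mul_of_nonneg_left ?_ (by linarith [(hw01 (sh i Z)).2])
                      exact Finset.prod_le_one (fun j _ => by linarith [(hw01 (sh j Z)).2])
                        (fun j _ => by linarith [(hw01 (sh j Z)).1])
                  _ < 1 := by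
                      have : 0 < w (sh i Z) := lt_of_le_of_ne (hw01 _).1 (Ne.symm hne)
                      linarith
              linarith
          · intro h
            have : ∏ i ∈ Finset.range (Z []), (1 - w (sh i Z)) = 1 :=
              Finset.prod_eq_one fun i hi => by rw [h i (Finset.mem_range.1 hi)]; ring
            rw [this]; ring
        have hmz : MeasurableSet {Z : Env | w Z = 0} := hwm (measurableSet_singleton 0)
        rw [← lintegral_indicator hmz]
        have hF : ∀ Z : Env, Set.indicator {Z : Env | w Z = 0}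
            (fun Z => ENNReal.ofReal (an ρ (lam : ℝ) γ (n + 1) Z)) Z ≤
            (fun k (Y : ℕ → Env) => (lam : ℝ≥0∞) + ENNReal.ofReal
              (if ∀ i < k, w (Y i) = 0 then ∑ i ∈ Finset.range k, a (Y i) else 0))
              (Z []) (fun i => sh i Z) := by
          intro Z
          by_cases hZ : w Z = 0
          · have hZ' : ∀ i < Z [], w (sh i Z) = 0 := by
              have : Z ∈ {Z : Env | w Z = 0} := hZ
              rw [hset] at this
              exact this
            rw [Set.indicator_of_mem (by exact hZ)]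
            simp only
            rw [if_pos hZ', ← ENNReal.ofReal_coe_nnreal, ← ENNReal.ofReal_add lam.coe_nonneg
              (Finset.sum_nonneg fun i _ => ha0 _)]
            refine ENNReal.ofReal_le_ofReal ?_
            rw [hrec]
            refine (na_bds lam.coe_nonneg hg.le ha0 hw0 _ _).2.trans ?_
            unfold Wf
            have : ∑ i ∈ Finset.range (Z []), w (sh i Z) = 0 :=
              Finset.sum_eq_zero fun i hi => hZ' i (Finset.mem_range.1 hi)
            rw [this]
            simp
          · rw [Set.indicator_of_notMem (by exact hZ)]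
            exact zero_le
        refine (lintegral_mono hF).trans ?_
        have hGm : ∀ k, Measurable fun Y : ℕ → Env => ENNReal.ofReal
            (if ∀ i < k, w (Y i) = 0 then ∑ i ∈ Finset.range k, a (Y i) else 0) := by
          intro k
          refine Measurable.ennreal_ofReal (Measurable.ite ?_ (hsum a ham k) measurable_const)
          have : {Y : ℕ → Env | ∀ i < k, w (Y i) = 0} =
              ⋂ i : ℕ, ⋂ _ : i < k, {Y | w (Y i) = 0} := by
            ext Y; simp
          rw [this]
          exact MeasurableSet.iInter fun i => MeasurableSet.iInter fun _ =>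
            (hwm.comp (measurable_pi_apply i)) (measurableSet_singleton 0)
        rw [hbr (fun k (Y : ℕ → Env) => (lam : ℝ≥0∞) + ENNReal.ofReal
              (if ∀ i < k, w (Y i) = 0 then ∑ i ∈ Finset.range k, a (Y i) else 0))
          (fun k => measurable_const.add (hGm k))]
        have hin : ∀ k, ∫⁻ Y, ((lam : ℝ≥0∞) + ENNReal.ofReal
              (if ∀ i < k, w (Y i) = 0 then ∑ i ∈ Finset.range k, a (Y i) else 0)) ∂m =
            lam + (k : ℝ≥0∞) * z ^ (k - 1) *
              ∫⁻ x in {x | w x = 0}, ENNReal.ofReal (a x) ∂μ := by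
          intro k
          rw [lintegral_add_left measurable_const, lintegral_const, measure_univ, mul_one]
          congr 1
          exact (hInd Env μ w a γ hwm ham hw01 ha0 hg).2.2.1 k
        simp_rw [hin]
        rw [lintegral_add_left measurable_const, lintegral_const, measure_univ, mul_one,
          lintegral_countable']
        have hts : ∑' k : ℕ, ((k : ℝ≥0∞) * z ^ (k - 1) *
              ∫⁻ x in {x | w x = 0}, ENNReal.ofReal (a x) ∂μ) * p {k} =
            f1 * ∫⁻ x in {x | w x = 0}, ENNReal.ofReal (a x) ∂μ := by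
          rw [hf1def, ← ENNReal.tsum_mul_right]
          exact tsum_congr fun k => by ring
        rw [hts]
        calc (lam : ℝ≥0∞) + f1 * ∫⁻ x in {x | w x = 0}, ENNReal.ofReal (a x) ∂μ
            ≤ lam + f1 * ENNReal.ofReal (lam / (1 - f1.toReal)) :=
              add_le_add le_rfl (mul_le_mul_right ih0 _)
          _ = ENNReal.ofReal ((lam : ℝ) + f1.toReal * (lam / (1 - f1.toReal))) := by
              rw [ENNReal.ofReal_add lam.coe_nonneg (by positivity), ENNReal.ofReal_mul hf10,
                ENNReal.ofReal_toReal hf1t, ENNReal.ofReal_coe_nnreal]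
          _ ≤ ENNReal.ofReal (lam / (1 - f1.toReal)) := by
              refine ENNReal.ofReal_le_ofReal (le_of_eq ?_)
              field_simp
              ring
  intro n
  refine (main n).2.1.trans ?_
  rw [ENNReal.ofReal]

end FrogB
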