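import Pool.Agent.Y986.FB.Quench
import Pool.Agent.Y986.FB.Comp
import Pool.Agent.Y986.FB.Moment
import Pool.Agent.Y986.FB.Lim
import Pool.Agent.W852.FG.Final

/-!
# Frog model with biased walks and general laws: final assembly
-/

set_option autoImplicit false

namespace FrogB

open FrogGW (Env InTree Survive GW unif Rd Conf cnt sh sub lev vert cross Reach ww wn an na)
open MeasureTheory ProbabilityTheory Filter
open scoped ENNReal NNReal Classical

theorem exists_gamma {m : ℝ≥0∞} (B : ℝ) (hB : 1 ≤ B) (hm : ENNReal.ofReal B < m) :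
    ∃ γ : ℝ, 0 < γ ∧ γ < 1 ∧ 1 < ENNReal.ofReal ((1 - γ) / ((1 + γ) * B)) * m := by
  have hB0 : 0 < B := by linarith
  have hB1 : ENNReal.ofReal B ≠ 0 := by
    rw [Ne, ENNReal.ofReal_eq_zero, not_le]; exact hB0
  have h1 : 1 < m / ENNReal.ofReal B := by
    rw [ENNReal.lt_div_iff_mul_lt (Or.inl hB1) (Or.inl ENNReal.ofReal_ne_top), one_mul]
    exact hm
  obtain ⟨γ, h2, h3, h4⟩ := FrogGW.exists_gamma h1
  refine ⟨γ, h2, h3, ?_⟩
  have h5 : (1 - γ) / ((1 + γ) * B) = (1 - γ) / (1 + γ) * B⁻¹ := by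
    rw [← div_div, div_eq_mul_inv ((1 - γ) / (1 + γ))]
  have h6 : 0 ≤ (1 - γ) / (1 + γ) := div_nonneg (by linarith) (by linarith)
  rw [h5, ENNReal.ofReal_mul h6, ENNReal.ofReal_inv_of_pos hB0, mul_assoc,
    mul_comm (ENNReal.ofReal B)⁻¹ m, ← div_eq_mul_inv]
  exact h4

theorem final (hTr : FrogGW.TaskTree) (hseq : FrogGW.TaskSeq) (hW : FrogGW.TaskW)
    (hE : FrogGW.TaskExt)
    (hMo : ∀ (p : Measure ℕ) [IsProbabilityMeasure p] (γ ρ : ℝ), 0 < γ → γ < 1 → 0 < ρ → ρ < 1 →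
      1 < ENNReal.ofReal ρ * ∫⁻ k, (k : ℝ≥0∞) ∂p →
      ∃ lam : ℝ≥0, 0 < lam ∧ ∃ C : ℝ≥0, ∀ n,
        ∫⁻ Z, ENNReal.ofReal (an ρ lam γ n Z) ∂(GW p) ≤ C)
    (p : Measure ℕ) [IsProbabilityMeasure p] (hp : 1 < ∫⁻ k, (k : ℝ≥0∞) ∂p)
    (b : ℝ) (hb : 0 < b) (hbp : ENNReal.ofReal b < ∫⁻ k, (k : ℝ≥0∞) ∂p) :
    ∃ lam : ℝ≥0, 0 < lam ∧ MeasurableSet Survive ∧
      ∀ᵐ Z ∂(GW p), Z ∈ Survive → ∃ C : ℝ≥0, ∀ (η : List ℕ → Measure ℕ)
        [∀ v, IsProbabilityMeasure (η v)], (∀ v, ∫⁻ k, (k : ℝ≥0∞) ∂(η v) ≤ lam) →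
        ∫⁻ ω, ((Visits b Z ω).encard : ℝ≥0∞) ∂(FM η) ≤ C ∧
        ∀ᵐ ω ∂(FM η), (Visits b Z ω).Finite := by
  have hBm : ENNReal.ofReal (max b 1) < ∫⁻ k, (k : ℝ≥0∞) ∂p := by
    rcases le_total b 1 with h | h
    · rw [max_eq_right h, ENNReal.ofReal_one]; exact hp
    · rw [max_eq_left h]; exact hbp
  obtain ⟨γ, hg0, hg1, hγ⟩ := exists_gamma (max b 1) (le_max_right _ _) hBm
  have hC := fun (lam : ℝ) (hl : 0 < lam) => taskComp hW b lam γ hb hl hg0 hg1
  set ρ := (1 - γ) / ((1 + γ) * max b 1) with hρ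
  have hB1 : 1 ≤ max b 1 := le_max_right _ _
  have hρ0 : 0 < ρ := div_pos (by linarith) (by positivity)
  have hρ1 : ρ < 1 := by
    rw [hρ, div_lt_one (by positivity)]
    nlinarith
  obtain ⟨lam, hlam, C, hCb⟩ := hMo p γ ρ hg0 hg1 hρ0 hρ1 hγ
  obtain ⟨hSm, hSpos⟩ := hE p ρ hρ0 hρ1 hγ
  obtain ⟨_, hwm, _, hw01, hwrec, hanm⟩ := hW ρ hρ0 hρ1
  have hl' : (0 : ℝ) < lam := hlam
  have hta := taskTA b lam γ hb hl' hg0 hg1.le
  refine ⟨lam, hlam, hSm, ?_⟩
  set m := Measure.infinitePi fun _ : ℕ => GW p with hm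
  -- Fatou
  have hfat : ∀ k : ℕ, ∀ᵐ Y ∂m,
      liminf (fun n => ∑ i ∈ Finset.range k, ENNReal.ofReal (an ρ lam γ n (Y i))) atTop < ⊤ := by
    intro k
    have hme : ∀ n, Measurable fun Y : ℕ → Env =>
        ∑ i ∈ Finset.range k, ENNReal.ofReal (an ρ lam γ n (Y i)) := by
      intro n
      exact Finset.measurable_sum _ fun i _ =>
        ((hanm lam γ n).comp (measurable_pi_apply i)).ennreal_ofReal
    refine ae_lt_top (Measurable.liminf hme) ?_
    refine ne_of_lt (lt_of_le_of_lt (lintegral_liminf_le hme) ?_)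
    have hb : ∀ n, ∫⁻ Y, ∑ i ∈ Finset.range k, ENNReal.ofReal (an ρ lam γ n (Y i)) ∂m ≤
        (k : ℝ≥0∞) * C := by
      intro n
      rw [lintegral_finsetSum]
      · calc ∑ i ∈ Finset.range k, ∫⁻ Y, ENNReal.ofReal (an ρ lam γ n (Y i)) ∂m
            ≤ ∑ _i ∈ Finset.range k, (C : ℝ≥0∞) := by
              refine Finset.sum_le_sum fun i _ => ?_
              have := (measurePreserving_eval_infinitePi (fun _ : ℕ => GW p) i).lintegral_comp
                (f := fun Z => ENNReal.ofReal (an ρ lam γ n Z)) (hanm lam γ n).ennreal_ofReal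
              simp only [Function.eval] at this
              rw [this]
              exact hCb n
          _ = (k : ℝ≥0∞) * C := by simp
      · intro i _
        exact ((hanm lam γ n).comp (measurable_pi_apply i)).ennreal_ofReal
    exact lt_of_le_of_lt (liminf_le_of_frequently_le' (Frequently.of_forall hb))
      (ENNReal.mul_lt_top (ENNReal.natCast_lt_top k) ENNReal.coe_lt_top)
  have hfat' : ∀ᵐ Z ∂(GW p), ∀ k : ℕ,
      liminf (fun n => ∑ i ∈ Finset.range k, ENNReal.ofReal (an ρ lam γ n (sh i Z))) atTop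
        < ⊤ := by
    have h1 : MeasurePreserving (fun Z : Env => fun i : ℕ => sh i Z) (GW p) m :=
      (measurePreserving_snd (μ := p) (ν := m)).comp (hTr p)
    exact h1.quasiMeasurePreserving.ae (ae_all_iff.2 hfat)
  filter_upwards [hfat', hSpos] with Z hZ1 hZ2 hZS
  have hwpos := hZ2 hZS
  -- some child has positive w
  have hsum : 0 < ∑ i ∈ Finset.range (Z []), ww ρ (sh i Z) := by
    by_contra h
    have h0 : ∑ i ∈ Finset.range (Z []), ww ρ (sh i Z) = 0 :=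
      le_antisymm (not_lt.1 h) (Finset.sum_nonneg fun i _ => (hw01 _).1)
    rw [Finset.sum_eq_zero_iff_of_nonneg fun i _ => (hw01 _).1] at h0
    have : ∏ i ∈ Finset.range (Z []), (1 - ww ρ (sh i Z)) = 1 :=
      Finset.prod_eq_one fun i hi => by rw [h0 i hi]; ring
    rw [hwrec Z, this] at hwpos
    simp at hwpos
  have hZ0 : 1 ≤ Z [] := by
    by_contra h
    have : Z [] = 0 := by omega
    rw [this] at hsum
    simp at hsum
  set c0 := γ * ∑ i ∈ Finset.range (Z []), ww ρ (sh i Z) with hc0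
  have hc0pos : 0 < c0 := mul_pos hg0 hsum
  have hTH : ∀ N, c0 ≤ TH b lam γ N Z [] := by
    intro N
    rw [hc0, TH, Finset.mul_sum]
    exact Finset.sum_le_sum fun i _ => (hC lam hl' _ _).2
  have hAA : ∀ N, AA b lam γ N Z [] - lam ≤
      ∑ i ∈ Finset.range (Z []), an ρ lam γ (N - 1) (sh i Z) := by
    intro N
    rw [AA, add_sub_cancel_left]
    exact Finset.sum_le_sum fun i _ => (hC lam hl' _ _).1
  have hAA0 : ∀ N, 0 ≤ AA b lam γ N Z [] - lam := by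
    intro N
    rw [AA, add_sub_cancel_left]
    exact Finset.sum_nonneg fun i _ => (hta _ _).1
  obtain ⟨L, hL1, hL2⟩ := ENNReal.lt_iff_exists_nnreal_btwn.1 (hZ1 (Z []))
  have hfr := frequently_lt_of_liminf_lt (by isBoundedDefault) hL1
  refine ⟨Real.toNNReal ((Z [] : ℝ) / (b * c0) * (1 + L)), ?_⟩
  intro η _ hη
  apply Lim.lim b η Z hZ0
  have hfr' : ∃ᶠ N in atTop, 1 ≤ N ∧
      ∑ i ∈ Finset.range (Z []), ENNReal.ofReal (an ρ lam γ (N - 1) (sh i Z)) < L := by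
    rw [frequently_atTop] at hfr ⊢
    intro n
    obtain ⟨k, hk, hk'⟩ := hfr n
    exact ⟨k + 1, by omega, by omega, by simpa using hk'⟩
  refine hfr'.mono fun N hN => ?_
  obtain ⟨hN1, hN2⟩ := hN
  have hTHp : 0 < TH b lam γ N Z [] := hc0pos.trans_le (hTH N)
  refine (quench hseq b hb lam γ hlam hg0 hg1.le Z N hN1 hTHp η hη).trans ?_
  rw [ENNReal.ofReal]
  refine ENNReal.coe_le_coe.2 (Real.toNNReal_le_toNNReal ?_)
  have hsumL : ∑ i ∈ Finset.range (Z []), an ρ lam γ (N - 1) (sh i Z) ≤ L := by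
    rw [← ENNReal.ofReal_sum_of_nonneg, ← ENNReal.ofReal_coe_nnreal] at hN2
    · exact (ENNReal.ofReal_lt_ofReal_iff_of_nonneg (by
        refine Finset.sum_nonneg fun i _ => ?_
        exact (hta _ _).1.trans (hC lam hl' _ _).1)).1 hN2 |>.le
    · intro i _
      exact (hta _ _).1.trans (hC lam hl' _ _).1
  have h1 : (Z [] : ℝ) / (b * TH b lam γ N Z []) ≤ (Z [] : ℝ) / (b * c0) :=
    div_le_div_of_nonneg_left (Nat.cast_nonneg _) (mul_pos hb hc0pos)
      (mul_le_mul_of_nonneg_left (hTH N) hb.le)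
  have h2 : 1 + (AA b lam γ N Z [] - lam) ≤ 1 + L := by
    have := hAA N
    linarith
  have h3 : 0 ≤ 1 + (AA b lam γ N Z [] - lam) := by
    have := hAA0 N
    linarith
  exact mul_le_mul h1 h2 h3 (by positivity)

end FrogB
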