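import Pool.Agent.Y986.FB.Defs

/-!
# The frog model: measurability of hitting events and of the score; expected score
-/

namespace FrogB

open FrogGW (Env InTree Survive GW unif Rd Conf cnt sh sub lev vert cross Reach TaskSeq)
open MeasureTheory ProbabilityTheory Filter
open scoped ENNReal NNReal Classical

variable (b : ℝ)

/-- one step is a function of one measurable natural number -/
lemma step_fac (Z : Env) (x : List ℕ) :
    ∃ (g : ℝ → ℕ) (h : ℕ → List ℕ), Measurable g ∧ ∀ s, step b Z x s = h (g s) := by
  cases x with
  | nil =>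
    refine ⟨fun s => ⌊s * (Z [] : ℝ)⌋₊, fun n => [min n (Z [] - 1)], ?_, fun s => ?_⟩
    · exact Nat.measurable_floor.comp (measurable_id.mul_const _)
    · rfl
  | cons i v =>
    refine ⟨fun s => ⌊s * ((Z (i :: v) : ℝ) + b)⌋₊,
      fun n => if n < Z (i :: v) then n :: i :: v else v, ?_, fun s => ?_⟩
    · exact Nat.measurable_floor.comp (measurable_id.mul_const _)
    · rw [step]

lemma meas_shift : Measurable (fun u : ℕ → ℝ => fun k => u (k + 1)) :=
  measurable_pi_lambda _ fun k => measurable_pi_apply (k + 1)

lemma meas_hit (Z : Env) (N m : ℕ) (x y : List ℕ) : MeasurableSet {u | Hit b Z N m x u y} := by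
  induction m generalizing x with
  | zero =>
    by_cases h : x.length < N ∧ x = y
    · have : {u : ℕ → ℝ | Hit b Z N 0 x u y} = Set.univ := by
        ext u
        simp only [Set.mem_ofPred_eq, Hit, Set.mem_univ, iff_true]
        exact h
      rw [this]; exact MeasurableSet.univ
    · have : {u : ℕ → ℝ | Hit b Z N 0 x u y} = ∅ := by
        ext u; simp only [Set.mem_ofPred_eq, Hit, h, Set.mem_empty_iff_false]
      rw [this]; exact MeasurableSet.empty
  | succ m ih =>
    obtain ⟨g, h, hg, hgh⟩ := step_fac b Z x
    by_cases h1 : x.length < N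
    · by_cases h2 : x = y
      · have : {u : ℕ → ℝ | Hit b Z N (m + 1) x u y} = Set.univ := by
          ext u
          simp only [Set.mem_ofPred_eq, Hit, Set.mem_univ, iff_true]
          exact ⟨h1, Or.inl h2⟩
        rw [this]; exact MeasurableSet.univ
      · have : {u : ℕ → ℝ | Hit b Z N (m + 1) x u y} = ⋃ n : ℕ, ({u | g (u 0) = n} ∩
            (fun u : ℕ → ℝ => fun k => u (k + 1)) ⁻¹' {u | Hit b Z N m (h n) u y}) := by
          ext u
          simp only [Set.mem_ofPred_eq, Hit, Set.mem_iUnion, Set.mem_inter_iff, Set.mem_preimage]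
          constructor
          · rintro ⟨_, h3 | h3⟩
            · exact absurd h3 h2
            · refine ⟨g (u 0), rfl, ?_⟩
              rw [hgh] at h3
              exact h3
          · rintro ⟨n, rfl, h3⟩
            refine ⟨h1, Or.inr ?_⟩
            rw [hgh]
            exact h3
        rw [this]
        refine MeasurableSet.iUnion fun n => MeasurableSet.inter ?_ (meas_shift (ih (h n)))
        exact (hg.comp (measurable_pi_apply 0)) (measurableSet_singleton n)
    · have : {u : ℕ → ℝ | Hit b Z N (m + 1) x u y} = ∅ := by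
        ext u
        simp only [Set.mem_ofPred_eq, Hit, Set.mem_empty_iff_false, iff_false]
        exact fun h => h1 h.1
      rw [this]; exact MeasurableSet.empty

/-- the integrand after one step -/
noncomputable def GG (Z : Env) (N : ℕ) (β : List ℕ → ℝ≥0∞) (m : ℕ) (x : List ℕ) (q : ℝ × (ℕ → ℝ)) :
    ℝ≥0∞ :=
  (if x = [] then 1 else 0) + cross β x (step b Z x q.1) +
      (if (step b Z x q.1).length < N then score b Z N β m (step b Z x q.1) q.2 else 0)

lemma meas_GG (Z : Env) (N : ℕ) (β : List ℕ → ℝ≥0∞) (m : ℕ)
    (ih : ∀ x, Measurable fun u => score b Z N β m x u) (x : List ℕ) : Measurable (GG b Z N β m x) := by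
  obtain ⟨g, h, hg, hgh⟩ := step_fac b Z x
  have h1 : Measurable (fun q : ℕ × (ℕ → ℝ) => (if x = [] then (1 : ℝ≥0∞) else 0) +
      cross β x (h q.1) + (if (h q.1).length < N then score b Z N β m (h q.1) q.2 else 0)) := by
    apply measurable_from_prod_countable_right
    intro n
    simp only
    refine Measurable.add measurable_const ?_
    by_cases hn : (h n).length < N
    · simp only [if_pos hn]; exact ih (h n)
    · simp only [if_neg hn]; exact measurable_const
  have h2 : Measurable (fun q : ℝ × (ℕ → ℝ) => (g q.1, q.2)) :=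
    (hg.comp measurable_fst).prodMk measurable_snd
  have h3 := h1.comp h2
  have h4 : GG b Z N β m x = (fun q : ℕ × (ℕ → ℝ) => (if x = [] then (1 : ℝ≥0∞) else 0) +
      cross β x (h q.1) + (if (h q.1).length < N then score b Z N β m (h q.1) q.2 else 0)) ∘
      (fun q : ℝ × (ℕ → ℝ) => (g q.1, q.2)) := by
    funext q
    unfold GG
    simp only [Function.comp, hgh]
  rw [h4]
  exact h3

lemma meas_split : Measurable (fun u : ℕ → ℝ => (u 0, fun k => u (k + 1))) :=
  (measurable_pi_apply 0).prodMk meas_shift

lemma score_succ (Z : Env) (N : ℕ) (β : List ℕ → ℝ≥0∞) (m : ℕ) (x : List ℕ) (u : ℕ → ℝ) :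
    score b Z N β (m + 1) x u = GG b Z N β m x (u 0, fun k => u (k + 1)) := rfl

lemma meas_score (Z : Env) (N : ℕ) (β : List ℕ → ℝ≥0∞) (m : ℕ) :
    ∀ x : List ℕ, Measurable fun u => score b Z N β m x u := by
  induction m with
  | zero => intro x; exact measurable_const
  | succ m ih =>
    intro x
    exact (meas_GG b Z N β m ih x).comp meas_split

lemma meas_walk (Z : Env) (x : List ℕ) (k : ℕ) :
    ∀ y : List ℕ, MeasurableSet {u | walk b Z x u k = y} := by
  induction k with
  | zero =>
    intro y
    by_cases h : x = y
    · have : {u : ℕ → ℝ | walk b Z x u 0 = y} = Set.univ := by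
        ext u
        simp only [Set.mem_ofPred_eq, walk, Set.mem_univ, iff_true]
        exact h
      rw [this]; exact MeasurableSet.univ
    · have : {u : ℕ → ℝ | walk b Z x u 0 = y} = ∅ := by
        ext u
        simp only [Set.mem_ofPred_eq, walk, Set.mem_empty_iff_false, iff_false]
        exact h
      rw [this]; exact MeasurableSet.empty
  | succ k ih =>
    intro y
    have : {u : ℕ → ℝ | walk b Z x u (k + 1) = y} = ⋃ v : List ℕ, ({u | walk b Z x u k = v} ∩
        {u | step b Z v (u k) = y}) := by
      ext u
      simp only [Set.mem_ofPred_eq, walk, Set.mem_iUnion, Set.mem_inter_iff]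
      constructor
      · intro h; exact ⟨_, rfl, h⟩
      · rintro ⟨v, rfl, h⟩; exact h
    rw [this]
    refine MeasurableSet.iUnion fun v => MeasurableSet.inter (ih v) ?_
    obtain ⟨g, h, hg, hgh⟩ := step_fac b Z v
    have h2 : {u : ℕ → ℝ | step b Z v (u k) = y} = (fun u : ℕ → ℝ => g (u k)) ⁻¹' {n | h n = y} := by
      ext u
      simp only [Set.mem_ofPred_eq, Set.mem_preimage, hgh]
    rw [h2]
    exact (hg.comp (measurable_pi_apply k)) (MeasurableSet.of_discrete)


theorem taskWalk (hseq : FrogGW.TaskSeq) (Z : Env) (N : ℕ) (β U : List ℕ → ℝ≥0∞)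
    (hU : ∀ x, x.length < N → (if x = [] then 1 else 0) +
      ∫⁻ s, (cross β x (step b Z x s) +
        (if (step b Z x s).length < N then U (step b Z x s) else 0)) ∂unif ≤ U x) :
    ∀ m x, x.length < N →
      ∫⁻ u, score b Z N β m x u ∂(Measure.infinitePi fun _ : ℕ => unif) ≤ U x := by
  intro m
  have hms := fun m => meas_score b Z N β m
  induction m with
  | zero =>
    intro x hx
    simp only [score, lintegral_zero]
    exact bot_le
  | succ m ih =>
    intro x hx
    have h1 : ∫⁻ u, score b Z N β (m + 1) x u ∂(Measure.infinitePi fun _ : ℕ => unif) =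
        ∫⁻ q, GG b Z N β m x q ∂(unif.prod (Measure.infinitePi fun _ : ℕ => unif)) := by
      simp only [score_succ]
      exact (hseq ℝ unif).lintegral_comp (meas_GG b Z N β m (hms m) x)
    rw [h1, lintegral_prod _ (meas_GG b Z N β m (hms m) x).aemeasurable]
    refine le_trans ?_ (hU x hx)
    have h2 : ∀ s : ℝ, ∫⁻ v, GG b Z N β m x (s, v) ∂(Measure.infinitePi fun _ : ℕ => unif) ≤
        (if x = [] then 1 else 0) + (cross β x (step b Z x s) +
        (if (step b Z x s).length < N then U (step b Z x s) else 0)) := by
      intro s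
      unfold GG
      simp only
      rw [lintegral_add_left measurable_const, lintegral_const, measure_univ, mul_one, add_assoc]
      refine add_le_add le_rfl (add_le_add le_rfl ?_)
      by_cases h : (step b Z x s).length < N
      · simp only [if_pos h]
        exact ih _ h
      · simp only [if_neg h, lintegral_zero]
        exact le_rfl
    refine (lintegral_mono h2).trans ?_
    rw [lintegral_add_left measurable_const, lintegral_const, measure_univ, mul_one]

end FrogB
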