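import Pool.Agent.Y986.FB.Score
import Pool.Agent.W930.FG.Pot

/-!
# Frog model with biased walks: the potential is superharmonic
-/

set_option autoImplicit false

namespace FrogB

open FrogGW (Env InTree Survive GW unif Rd Conf cnt sh sub lev vert cross Reach ww wn an na)
open MeasureTheory ProbabilityTheory Filter
open scoped ENNReal NNReal Classical
open Pool.Agent.W930.FG (sh_sub)

theorem taskTA (b lam γ : ℝ) (hb : 0 < b) (hl : 0 < lam) (hγ : 0 < γ) (hγ1 : γ ≤ 1) :
    ∀ (n : ℕ) (Z : Env),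
      0 ≤ (TA b lam γ n Z).1 ∧ 0 ≤ (TA b lam γ n Z).2 ∧ (TA b lam γ n Z).2 ≤ b⁻¹ := by
  have hb' : 0 ≤ b⁻¹ := by positivity
  intro n
  induction n with
  | zero => intro Z; simp [TA, hb.le]
  | succ n ih =>
    intro Z
    have hA : 0 ≤ ∑ i ∈ Finset.range (Z []), (TA b lam γ n (sh i Z)).1 :=
      Finset.sum_nonneg fun i _ => (ih _).1
    have hT : 0 ≤ ∑ i ∈ Finset.range (Z []), (TA b lam γ n (sh i Z)).2 :=
      Finset.sum_nonneg fun i _ => (ih _).2.1
    rw [TA]
    set A := ∑ i ∈ Finset.range (Z []), (TA b lam γ n (sh i Z)).1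
    set T := ∑ i ∈ Finset.range (Z []), (TA b lam γ n (sh i Z)).2
    split_ifs with h
    · have h1 : γ * T ≤ T := by nlinarith
      refine ⟨le_rfl, ?_, ?_⟩
      · simp only
        refine mul_nonneg hb' (div_nonneg ?_ ?_) <;> linarith
      · simp only
        refine mul_le_of_le_one_right hb' ?_
        rw [div_le_one (by linarith)]
        linarith
    · refine ⟨?_, ?_, ?_⟩
      · simp only
        apply div_nonneg <;> linarith
      · simp only
        refine mul_nonneg hb' (div_nonneg ?_ ?_) <;> linarith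
      · simp only
        refine mul_le_of_le_one_right hb' ?_
        rw [div_le_one (by linarith)]
        linarith

section

variable {b lam γ : ℝ} (hb : 0 < b) (hl : 0 < lam) (hγ : 0 < γ) (hγ1 : γ ≤ 1) (N : ℕ) (Z : Env)

include hb hl hγ hγ1 in
theorem TH_nonneg (u : List ℕ) : 0 ≤ TH b lam γ N Z u :=
  Finset.sum_nonneg fun _ _ => (taskTA b lam γ hb hl hγ hγ1 _ _).2.1

include hb hl hγ hγ1 in
theorem TH_le (u : List ℕ) : b * TH b lam γ N Z u ≤ Z u := by
  unfold TH
  rw [Finset.mul_sum]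
  calc ∑ i ∈ Finset.range (Z u), b * (TA b lam γ (N - 1 - u.length) (sub (i :: u) Z)).2
      ≤ ∑ i ∈ Finset.range (Z u), (1 : ℝ) :=
        Finset.sum_le_sum fun i _ => by
          have := mul_le_mul_of_nonneg_left
            (taskTA b lam γ hb hl hγ hγ1 (N - 1 - u.length) (sub (i :: u) Z)).2.2 hb.le
          rwa [mul_inv_cancel₀ hb.ne'] at this
    _ = Z u := by simp

include hb hl hγ hγ1 in
theorem AA_nonneg (u : List ℕ) : 0 ≤ AA b lam γ N Z u := by
  unfold AA
  have : 0 ≤ ∑ i ∈ Finset.range (Z u), (TA b lam γ (N - 1 - u.length) (sub (i :: u) Z)).1 :=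
    Finset.sum_nonneg fun _ _ => (taskTA b lam γ hb hl hγ hγ1 _ _).1
  linarith

include hb hl hγ hγ1 in
theorem pot_nonneg (u : List ℕ) : 0 ≤ pot b lam γ N Z u := by
  induction u with
  | nil =>
    rw [pot]
    exact div_nonneg (Nat.cast_nonneg _) (mul_nonneg hb.le (TH_nonneg hb hl hγ hγ1 N Z []))
  | cons i u ih =>
    rw [pot]
    have := TH_nonneg hb hl hγ hγ1 N Z (i :: u)
    exact div_nonneg ih (by linarith)

include hb hl hγ hγ1 in
theorem bet_nonneg (u : List ℕ) : 0 ≤ bet b lam γ N Z u := by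
  unfold bet
  split_ifs
  · exact mul_nonneg (AA_nonneg hb hl hγ hγ1 N Z u) (pot_nonneg hb hl hγ hγ1 N Z u)
  · exact le_rfl

include hb hl hγ hγ1 in
/-- the key identity -/
theorem key (u : List ℕ) (hu : u.length < N) (i : ℕ) :
    bet b lam γ N Z (i :: u) + (if (i :: u).length < N then pot b lam γ N Z (i :: u) else 0) =
      (1 - b * (TA b lam γ (N - 1 - u.length) (sub (i :: u) Z)).2) * pot b lam γ N Z u := by
  rcases Nat.eq_zero_or_pos (N - 1 - u.length) with h0 | h0
  · have h1 : ¬ (i :: u).length < N := by simp; omega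
    have h2 : ¬ trig b lam γ N Z (i :: u) := fun h => h1 h.2.1
    rw [h0, if_neg h1, TA]
    unfold bet
    rw [if_neg h2]
    simp [mul_inv_cancel₀ hb.ne']
  · obtain ⟨m, hm⟩ : ∃ m, N - 1 - u.length = m + 1 := ⟨N - 1 - u.length - 1, by omega⟩
    have h1 : (i :: u).length < N := by simp; omega
    have h2 : N - 1 - (i :: u).length = m := by simp; omega
    have hA : AA b lam γ N Z (i :: u) = lam + ∑ j ∈ Finset.range ((sub (i :: u) Z) []),
        (TA b lam γ m (sh j (sub (i :: u) Z))).1 := by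
      unfold AA
      rw [h2]
      simp only [sh_sub]
      rfl
    have hT : TH b lam γ N Z (i :: u) = ∑ j ∈ Finset.range ((sub (i :: u) Z) []),
        (TA b lam γ m (sh j (sub (i :: u) Z))).2 := by
      unfold TH
      rw [h2]
      simp only [sh_sub]
      rfl
    have hT0 := TH_nonneg hb hl hγ hγ1 N Z (i :: u)
    have hT1 : 1 + TH b lam γ N Z (i :: u) ≠ 0 := by linarith
    rw [hm, if_pos h1, TA, ← hA, ← hT, pot]
    by_cases h3 : AA b lam γ N Z (i :: u) ≤ γ * TH b lam γ N Z (i :: u)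
    · have h4 : trig b lam γ N Z (i :: u) := ⟨by simp, h1, h3⟩
      unfold bet
      rw [if_pos h4, if_pos h3, pot]
      simp only
      field_simp
      ring
    · have h4 : ¬ trig b lam γ N Z (i :: u) := fun h => h3 h.2.2
      unfold bet
      rw [if_neg h4, if_neg h3]
      simp only
      field_simp
      ring

include hb hl hγ hγ1 in
theorem sum_key (u : List ℕ) (hu : u.length < N) :
    ∑ i ∈ Finset.range (Z u), (cross (fun t => ENNReal.ofReal (bet b lam γ N Z t)) u (i :: u) +
      (if (i :: u).length < N then ENNReal.ofReal (pot b lam γ N Z (i :: u)) else 0)) =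
    ENNReal.ofReal (((Z u : ℝ) - b * TH b lam γ N Z u) * pot b lam γ N Z u) := by
  have h1 : ∀ i ∈ Finset.range (Z u),
      (cross (fun t => ENNReal.ofReal (bet b lam γ N Z t)) u (i :: u) +
      (if (i :: u).length < N then ENNReal.ofReal (pot b lam γ N Z (i :: u)) else 0)) =
      ENNReal.ofReal ((1 - b * (TA b lam γ (N - 1 - u.length) (sub (i :: u) Z)).2) *
        pot b lam γ N Z u) := by
    intro i _
    unfold cross
    rw [if_pos (by simp), ← key hb hl hγ hγ1 N Z u hu i]
    have hbt := bet_nonneg hb hl hγ hγ1 N Z (i :: u)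
    have hp := pot_nonneg hb hl hγ hγ1 N Z (i :: u)
    split_ifs
    · rw [ENNReal.ofReal_add hbt hp]
    · rw [ENNReal.ofReal_add hbt le_rfl, ENNReal.ofReal_zero]
  rw [Finset.sum_congr rfl h1, ← ENNReal.ofReal_sum_of_nonneg]
  · rw [← Finset.sum_mul, Finset.sum_sub_distrib, ← Finset.mul_sum]
    simp [TH]
  · intro i _
    have := mul_le_mul_of_nonneg_left
      (taskTA b lam γ hb hl hγ hγ1 (N - 1 - u.length) (sub (i :: u) Z)).2.2 hb.le
    rw [mul_inv_cancel₀ hb.ne'] at this
    exact mul_nonneg (by linarith) (pot_nonneg hb hl hγ hγ1 N Z u)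

end

theorem taskPot (b lam γ : ℝ) (hb : 0 < b) (hl : 0 < lam) (hγ : 0 < γ) (hγ1 : γ ≤ 1) (Z : Env)
    (N : ℕ) (hTH : 0 < TH b lam γ N Z []) (x : List ℕ) (hx : x.length < N) :
    (if x = [] then 1 else 0) +
      ∫⁻ s, (cross (fun t => ENNReal.ofReal (bet b lam γ N Z t)) x (step b Z x s) +
        (if (step b Z x s).length < N then ENNReal.ofReal (pot b lam γ N Z (step b Z x s)) else 0))
        ∂unif ≤ ENNReal.ofReal (pot b lam γ N Z x) := by
  have hF := taskStep b hb Z (fun y => cross (fun t => ENNReal.ofReal (bet b lam γ N Z t)) x y +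
    (if y.length < N then ENNReal.ofReal (pot b lam γ N Z y) else 0))
  have hTHle := TH_le hb hl hγ hγ1 N Z x
  have hTH0 := TH_nonneg hb hl hγ hγ1 N Z x
  have hp0 := pot_nonneg hb hl hγ hγ1 N Z x
  cases x with
  | nil =>
    have hZ : 1 ≤ Z [] := by
      by_contra h
      have h0 : Z [] = 0 := by omega
      unfold TH at hTH
      rw [h0] at hTH
      simp at hTH
    rw [hF.1 hZ, if_pos rfl]
    have h1 := sum_key hb hl hγ hγ1 N Z [] hx
    rw [h1]
    have hZ0 : (0 : ℝ) < Z [] := by exact_mod_cast hZ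
    have h2 : ((Z [] : ℕ) : ℝ≥0∞)⁻¹ = ENNReal.ofReal ((Z [] : ℝ)⁻¹) := by
      rw [ENNReal.ofReal_inv_of_pos hZ0, ENNReal.ofReal_natCast]
    rw [h2, ← ENNReal.ofReal_mul (by positivity), ← ENNReal.ofReal_one,
      ← ENNReal.ofReal_add zero_le_one]
    · apply le_of_eq
      congr 1
      rw [pot]
      have := hTH.ne'
      have := hb.ne'
      field_simp
      ring
    · have : 0 ≤ ((Z [] : ℝ) - b * TH b lam γ N Z []) * pot b lam γ N Z [] :=
        mul_nonneg (by linarith) hp0
      positivity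
  | cons i v =>
    rw [hF.2 i v, if_neg (by simp), zero_add]
    have h1 := sum_key hb hl hγ hγ1 N Z (i :: v) hx
    rw [h1]
    have h3 : ¬ (i :: v).length < v.length := by simp
    have h4 : v.length < N := by simp at hx; omega
    unfold cross
    rw [if_neg h3, if_pos h4, zero_add]
    have hpv := pot_nonneg hb hl hγ hγ1 N Z v
    rw [← ENNReal.ofReal_mul hb.le, ← ENNReal.ofReal_add (mul_nonneg hb.le hpv)
      (mul_nonneg (by linarith) hp0)]
    have h5 : b * pot b lam γ N Z v + ((Z (i :: v) : ℝ) - b * TH b lam γ N Z (i :: v)) *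
        pot b lam γ N Z (i :: v) = ((Z (i :: v) : ℝ) + b) * pot b lam γ N Z (i :: v) := by
      have h6 : pot b lam γ N Z (i :: v) = pot b lam γ N Z v / (1 + TH b lam γ N Z (i :: v)) := by
        rw [pot]
      have h7 : pot b lam γ N Z v = (1 + TH b lam γ N Z (i :: v)) * pot b lam γ N Z (i :: v) := by
        rw [h6]
        field_simp
      rw [h7]
      ring
    rw [h5]
    have h9 : (0 : ℝ) < (Z (i :: v) : ℝ) + b := by positivity
    rw [← ENNReal.ofReal_inv_of_pos h9, ← ENNReal.ofReal_mul (by positivity),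
      ← mul_assoc, inv_mul_cancel₀ h9.ne', one_mul]

end FrogB
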