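import Pool.Agent.Y986.FB.Defs
import Pool.Agent.W930.FG.Score

/-!
# Frog model with biased walks: pathwise comparison of visits with the score, one-step law
-/

set_option autoImplicit false

namespace FrogB

open FrogGW (Env InTree Survive GW unif Rd Conf cnt sh sub lev vert cross Reach)
open MeasureTheory ProbabilityTheory Filter
open scoped ENNReal NNReal Classical

theorem step_cases (b : ℝ) (Z : Env) (x : List ℕ) (s : ℝ) :
    (∃ i, step b Z x s = i :: x) ∨ ∃ i, x = i :: step b Z x s := by
  cases x with
  | nil => exact Or.inl ⟨_, rfl⟩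
  | cons i v =>
    rw [step]
    split_ifs
    · exact Or.inl ⟨_, rfl⟩
    · exact Or.inr ⟨i, rfl⟩

theorem hit_length (b : ℝ) (Z : Env) (N m : ℕ) (x y : List ℕ) (u : ℕ → ℝ)
    (h : Hit b Z N m x u y) : x.length < N := by
  cases m with
  | zero => exact h.1
  | succ m => exact h.1

/-- Number of root visits plus the weights of the visited triggers that are not ancestors of the
starting point. -/
theorem taskScore (b : ℝ) (Z : Env) (N : ℕ) (β : List ℕ → ℝ≥0∞) (S : Finset (List ℕ)) (m : ℕ) :
    ∀ (x : List ℕ) (u : ℕ → ℝ), x.length < N →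
    vis b Z N (m + 1) x u +
      ∑ t ∈ S.filter (fun t => ¬ (t <:+ x)), (if Hit b Z N m x u t then β t else 0)
      ≤ score b Z N β (m + 1) x u := by
  have hc0 : ∀ x y : List ℕ, cross (fun _ => 0) x y = 0 := by
    intro x y; unfold cross; split_ifs <;> rfl
  induction m with
  | zero =>
    intro x u hx
    have h1 : ∑ t ∈ S.filter (fun t => ¬ (t <:+ x)),
        (if Hit b Z N 0 x u t then β t else 0) = 0 := by
      refine Finset.sum_eq_zero fun t ht => ?_
      rw [Finset.mem_filter] at ht
      rw [if_neg]
      rintro ⟨-, rfl⟩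
      exact ht.2 List.suffix_rfl
    rw [h1, add_zero]
    have e1 : vis b Z N (0 + 1) x u = (if x = [] then 1 else 0) +
        cross (fun _ => 0) x (step b Z x (u 0)) +
        (if (step b Z x (u 0)).length < N then 0 else 0) := rfl
    have e2 : score b Z N β (0 + 1) x u = (if x = [] then 1 else 0) +
        cross β x (step b Z x (u 0)) +
        (if (step b Z x (u 0)).length < N then 0 else 0) := rfl
    rw [e1, e2, hc0, add_zero]
    exact add_le_add (le_add_right le_rfl) le_rfl
  | succ m ih =>
    intro x u hx
    have e1 : vis b Z N (m + 1 + 1) x u = (if x = [] then 1 else 0) +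
        cross (fun _ => 0) x (step b Z x (u 0)) +
        (if (step b Z x (u 0)).length < N then
          vis b Z N (m + 1) (step b Z x (u 0)) (fun k => u (k + 1)) else 0) := rfl
    have e2 : score b Z N β (m + 1 + 1) x u = (if x = [] then 1 else 0) +
        cross β x (step b Z x (u 0)) +
        (if (step b Z x (u 0)).length < N then
          score b Z N β (m + 1) (step b Z x (u 0)) (fun k => u (k + 1)) else 0) := rfl
    rw [e1, e2, hc0, add_zero]
    set y := step b Z x (u 0) with hy
    have hne : ∀ t, ¬ t <:+ x →
        (Hit b Z N (m + 1) x u t ↔ Hit b Z N m y (fun k => u (k + 1)) t) := by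
      intro t ht
      constructor
      · rintro ⟨-, rfl | h⟩
        · exact absurd List.suffix_rfl ht
        · exact h
      · intro h
        exact ⟨hx, Or.inr h⟩
    have hsum : ∑ t ∈ S.filter (fun t => ¬ (t <:+ x)),
        (if Hit b Z N (m + 1) x u t then β t else 0) ≤ cross β x y +
        ∑ t ∈ S.filter (fun t => ¬ (t <:+ y)),
          (if Hit b Z N m y (fun k => u (k + 1)) t then β t else 0) := by
      rw [Finset.sum_filter, Finset.sum_filter]
      have h1 : ∀ t ∈ S, (if ¬ t <:+ x then (if Hit b Z N (m + 1) x u t then β t else 0) else 0) ≤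
          (if t = y then cross β x y else 0) +
          (if ¬ t <:+ y then (if Hit b Z N m y (fun k => u (k + 1)) t then β t else 0) else 0) := by
        intro t _
        by_cases hx1 : t <:+ x
        · rw [if_neg (not_not.2 hx1)]
          exact bot_le
        · rw [if_pos hx1]
          by_cases hy1 : t <:+ y
          · have h2 : t = y ∧ x.length < y.length := by
              rcases step_cases b Z x (u 0) with ⟨i, hi⟩ | ⟨i, hi⟩
              · rw [← hy] at hi
                rw [hi] at hy1 ⊢
                rcases List.suffix_cons_iff.1 hy1 with h3 | h3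
                · exact ⟨h3, by simp⟩
                · exact absurd h3 hx1
              · rw [← hy] at hi
                exfalso
                apply hx1
                rw [hi]
                exact hy1.trans (List.suffix_cons i y)
            rw [if_pos h2.1]
            unfold cross
            rw [if_pos h2.2, h2.1]
            refine le_add_right ?_
            split_ifs
            · exact le_rfl
            · exact bot_le
          · rw [if_pos hy1]
            refine le_add_left ?_
            by_cases h3 : Hit b Z N (m + 1) x u t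
            · rw [if_pos h3, if_pos ((hne t hx1).1 h3)]
            · rw [if_neg h3]
              exact bot_le
      refine (Finset.sum_le_sum h1).trans ?_
      rw [Finset.sum_add_distrib]
      refine add_le_add ?_ le_rfl
      rw [Finset.sum_ite_eq']
      split_ifs
      · exact le_rfl
      · exact bot_le
    by_cases hyN : y.length < N
    · rw [if_pos hyN, if_pos hyN]
      have h2 := ih y (fun k => u (k + 1)) hyN
      calc (if x = [] then (1 : ℝ≥0∞) else 0) +
            vis b Z N (m + 1) y (fun k => u (k + 1)) +
            ∑ t ∈ S.filter (fun t => ¬ (t <:+ x)),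
              (if Hit b Z N (m + 1) x u t then β t else 0)
          ≤ (if x = [] then (1 : ℝ≥0∞) else 0) +
            vis b Z N (m + 1) y (fun k => u (k + 1)) +
            (cross β x y + ∑ t ∈ S.filter (fun t => ¬ (t <:+ y)),
              (if Hit b Z N m y (fun k => u (k + 1)) t then β t else 0)) :=
            add_le_add le_rfl hsum
        _ = (if x = [] then 1 else 0) + cross β x y +
            (vis b Z N (m + 1) y (fun k => u (k + 1)) +
              ∑ t ∈ S.filter (fun t => ¬ (t <:+ y)),
              (if Hit b Z N m y (fun k => u (k + 1)) t then β t else 0)) := by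
            ac_rfl
        _ ≤ _ := add_le_add le_rfl h2
    · rw [if_neg hyN, if_neg hyN, add_zero, add_zero]
      have hno : ∀ t, ¬ Hit b Z N m y (fun k => u (k + 1)) t :=
        fun t h => hyN (hit_length b Z N m y t _ h)
      have h3 : ∑ t ∈ S.filter (fun t => ¬ (t <:+ y)),
          (if Hit b Z N m y (fun k => u (k + 1)) t then β t else 0) = 0 :=
        Finset.sum_eq_zero fun t _ => if_neg (hno t)
      rw [h3, add_zero] at hsum
      exact add_le_add le_rfl hsum

/-- the law of one step at a vertex with `n` children which is not the root -/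
theorem unif_floor_bias (n : ℕ) (b : ℝ) (hb : 0 < b) (G : ℕ → ℝ≥0∞) (c : ℝ≥0∞) :
    ∫⁻ x, (if ⌊x * ((n : ℝ) + b)⌋₊ < n then G ⌊x * ((n : ℝ) + b)⌋₊ else c) ∂unif =
      (ENNReal.ofReal ((n : ℝ) + b))⁻¹ * (ENNReal.ofReal b * c + ∑ m ∈ Finset.range n, G m) := by
  have hn : (0 : ℝ) ≤ n := Nat.cast_nonneg n
  set d : ℝ := (n : ℝ) + b with hd
  have hd0 : 0 < d := by positivity
  unfold unif
  have h1 : ∫⁻ x in Set.Ico (0 : ℝ) 1, (if ⌊x * d⌋₊ < n then G ⌊x * d⌋₊ else c) =
      ∫⁻ x in Set.Ico (0 : ℝ) 1, ((∑ m ∈ Finset.range n,
        (Set.Ico ((m : ℝ) / d) (((m : ℝ) + 1) / d)).indicator (fun _ => G m) x) +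
        (Set.Ico ((n : ℝ) / d) 1).indicator (fun _ => c) x) := by
    refine setLIntegral_congr_fun measurableSet_Ico fun x hx => ?_
    have hx0 : 0 ≤ x * d := mul_nonneg hx.1 hd0.le
    by_cases h : ⌊x * d⌋₊ < n
    · simp only [if_pos h]
      have hxn : x * d < n := (Nat.floor_lt hx0).1 h
      rw [Set.indicator_of_notMem, add_zero]
      · rw [Finset.sum_eq_single ⌊x * d⌋₊]
        · rw [Set.indicator_of_mem]
          rw [Set.mem_Ico, div_le_iff₀ hd0, lt_div_iff₀ hd0]
          exact ⟨Nat.floor_le hx0, Nat.lt_floor_add_one _⟩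
        · intro m _ hm
          rw [Set.indicator_of_notMem]
          intro h'
          rw [Set.mem_Ico, div_le_iff₀ hd0, lt_div_iff₀ hd0] at h'
          exact hm ((Nat.floor_eq_iff hx0).2 h').symm
        · intro h'
          exact absurd (Finset.mem_range.2 h) h'
      · rw [Set.mem_Ico, div_le_iff₀ hd0]
        intro h'
        linarith [h'.1]
    · simp only [if_neg h]
      have hxn : (n : ℝ) ≤ x * d := by
        by_contra h'
        exact h ((Nat.floor_lt hx0).2 (not_le.1 h'))
      rw [Set.indicator_of_mem, Finset.sum_eq_zero, zero_add]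
      · intro m hm
        rw [Finset.mem_range] at hm
        have hm1 : (m : ℝ) + 1 ≤ n := by exact_mod_cast hm
        rw [Set.indicator_of_notMem]
        intro h'
        rw [Set.mem_Ico, div_le_iff₀ hd0, lt_div_iff₀ hd0] at h'
        linarith [h'.2]
      · rw [Set.mem_Ico, div_le_iff₀ hd0]
        exact ⟨hxn, hx.2⟩
  have hms : Measurable fun x : ℝ => ∑ m ∈ Finset.range n,
        (Set.Ico ((m : ℝ) / d) (((m : ℝ) + 1) / d)).indicator (fun _ => G m) x :=
    Finset.measurable_sum _ fun m _ => measurable_const.indicator measurableSet_Ico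
  rw [h1, lintegral_add_left hms, lintegral_finsetSum _ fun m _ =>
    measurable_const.indicator measurableSet_Ico, mul_add, Finset.mul_sum, add_comm]
  have hinv : ENNReal.ofReal (d⁻¹) = (ENNReal.ofReal d)⁻¹ := ENNReal.ofReal_inv_of_pos hd0
  congr 1
  · rw [lintegral_indicator_const measurableSet_Ico, Measure.restrict_apply measurableSet_Ico,
      Set.inter_eq_left.2, Real.volume_Ico]
    · have h2 : 1 - (n : ℝ) / d = d⁻¹ * b := by
        rw [hd]; field_simp; ring
      rw [h2, ENNReal.ofReal_mul (by positivity), hinv]
      ring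
    · intro x hx
      exact ⟨le_trans (by positivity) hx.1, hx.2⟩
  · refine Finset.sum_congr rfl fun m hm => ?_
    rw [Finset.mem_range] at hm
    have hm1 : (m : ℝ) + 1 ≤ n := by exact_mod_cast hm
    rw [lintegral_indicator_const measurableSet_Ico, Measure.restrict_apply measurableSet_Ico,
      Set.inter_eq_left.2, Real.volume_Ico]
    · rw [mul_comm]
      congr 1
      have h2 : ((m : ℝ) + 1) / d - (m : ℝ) / d = d⁻¹ := by
        field_simp
        ring
      rw [h2, hinv]
    · intro x hx
      refine ⟨le_trans (by positivity) hx.1, lt_of_lt_of_le hx.2 ?_⟩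
      rw [div_le_one hd0]
      linarith

theorem taskStep (b : ℝ) (hb : 0 < b) (Z : Env) (F : List ℕ → ℝ≥0∞) :
    (1 ≤ Z [] → ∫⁻ x, F (step b Z [] x) ∂unif =
      (Z [] : ℝ≥0∞)⁻¹ * ∑ i ∈ Finset.range (Z []), F [i]) ∧
    (∀ i v, ∫⁻ x, F (step b Z (i :: v) x) ∂unif =
      (ENNReal.ofReal ((Z (i :: v) : ℝ) + b))⁻¹ *
        (ENNReal.ofReal b * F v + ∑ j ∈ Finset.range (Z (i :: v)), F (j :: i :: v))) := by
  refine ⟨fun hZ => ?_, fun i v => ?_⟩
  · exact (Pool.Agent.W930.FG.taskStep Z F).1 hZ
  · rw [← unif_floor_bias (Z (i :: v)) b hb (fun m => F (m :: i :: v)) (F v)]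
    refine lintegral_congr fun x => ?_
    rw [step]
    split_ifs <;> rfl

end FrogB
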