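import Pool.Agent.Y986.FB.Blk
import Pool.Agent.Y986.FB.Dom
import Pool.Agent.Y986.FB.Meas
import Pool.Agent.Y986.FB.Score
import Pool.Agent.Y986.FB.Chain

/-!
# Frog model with biased walks and general laws: the quenched bound
-/

set_option autoImplicit false

namespace FrogB

open FrogGW (Env InTree Survive GW unif Rd Conf cnt sh sub lev vert cross Reach ww wn an na)
open MeasureTheory ProbabilityTheory Filter
open scoped ENNReal NNReal Classical

theorem tv_cases (b lam γ : ℝ) (N : ℕ) (Z : Env) : ∀ y : List ℕ,
    tv b lam γ N Z y = [] ∨ trig b lam γ N Z (tv b lam γ N Z y)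
  | [] => Or.inl rfl
  | i :: u => by
    rw [tv]
    split_ifs with h
    · exact Or.inr h
    · exact tv_cases b lam γ N Z u

/-- Expected sums over a random number of particles. -/
theorem camp (η : Measure ℕ) [IsProbabilityMeasure η] (F : (ℕ → ℝ) → ℝ≥0∞) (hF : Measurable F) :
    ∫⁻ r, ∑ j ∈ Finset.range r.1, F (r.2 j) ∂(vertexLaw η) =
      (∫⁻ k, (k : ℝ≥0∞) ∂η) * ∫⁻ u, F u ∂(Measure.infinitePi fun _ : ℕ => unif) := by
  unfold vertexLaw
  set ν : Measure (ℕ → ℝ) := Measure.infinitePi fun _ : ℕ => unif with hν
  have hm : Measurable fun r : Rd => ∑ j ∈ Finset.range r.1, F (r.2 j) := by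
    apply measurable_from_prod_countable_right
    intro n
    have h0 : ∀ j ∈ Finset.range n, Measurable fun y : ℕ → ℕ → ℝ => F (y j) :=
      fun j _ => hF.comp (measurable_pi_apply j)
    exact Finset.measurable_sum _ h0
  rw [lintegral_prod _ hm.aemeasurable]
  have h1 : ∀ n : ℕ, ∫⁻ v : ℕ → ℕ → ℝ, ∑ j ∈ Finset.range n, F (v j)
      ∂(Measure.infinitePi fun _ : ℕ => ν) = (n : ℝ≥0∞) * ∫⁻ u, F u ∂ν := by
    intro n
    have h0 : ∀ j ∈ Finset.range n, Measurable fun y : ℕ → ℕ → ℝ => F (y j) :=
      fun j _ => hF.comp (measurable_pi_apply j)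
    rw [lintegral_finsetSum _ h0]
    have h2 : ∀ j ∈ Finset.range n, ∫⁻ v : ℕ → ℕ → ℝ, F (v j)
        ∂(Measure.infinitePi fun _ : ℕ => ν) = ∫⁻ u, F u ∂ν := by
      intro j _
      exact (measurePreserving_eval_infinitePi (fun _ : ℕ => ν) j).lintegral_comp hF
    rw [Finset.sum_congr rfl h2]
    simp
  simp only [h1]
  rw [lintegral_mul_const _ (by exact measurable_from_top)]

/-- The factor of a vertex: one particle at the root, the mean number elsewhere. -/
noncomputable def ce (η : List ℕ → Measure ℕ) (x : List ℕ) : ℝ≥0∞ :=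
  if x = [] then 1 else ∫⁻ k, (k : ℝ≥0∞) ∂(η x)

/-- The bound for the factor of a vertex. -/
noncomputable def cf (lam : ℝ≥0) (x : List ℕ) : ℝ≥0∞ := if x = [] then 1 else lam

theorem ce_le (η : List ℕ → Measure ℕ) (lam : ℝ≥0) (hη : ∀ v, ∫⁻ k, (k : ℝ≥0∞) ∂(η v) ≤ lam)
    (x : List ℕ) : ce η x ≤ cf lam x := by
  unfold ce cf
  split_ifs
  · exact le_rfl
  · exact hη x

theorem camp' (η : List ℕ → Measure ℕ) [∀ v, IsProbabilityMeasure (η v)] (x : List ℕ)
    (F : (ℕ → ℝ) → ℝ≥0∞) (hF : Measurable F) :
    ∫⁻ r, ∑ j ∈ Finset.range (cnt x r), F (r.2 j) ∂(vertexLaw (η x)) =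
      ce η x * ∫⁻ u, F u ∂(Measure.infinitePi fun _ : ℕ => unif) := by
  cases x with
  | nil =>
    simp only [cnt, ce, Finset.sum_range_one, if_true, one_mul]
    have h1 : MeasurePreserving (fun r : Rd => r.2 0) (vertexLaw (η []))
        (Measure.infinitePi fun _ : ℕ => unif) := by
      have h2 : MeasurePreserving (Prod.snd : Rd → (ℕ → ℕ → ℝ)) (vertexLaw (η []))
          (Measure.infinitePi fun _ : ℕ => Measure.infinitePi fun _ : ℕ => unif) :=
        measurePreserving_snd
      exact (measurePreserving_eval_infinitePi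
        (fun _ : ℕ => Measure.infinitePi fun _ : ℕ => unif) 0).comp h2
    exact h1.lintegral_comp hF
  | cons i v =>
    simp only [cnt, ce]
    rw [camp (η (i :: v)) F hF]
    simp

theorem quench (hseq : FrogGW.TaskSeq) (b : ℝ) (hb : 0 < b) (lam : ℝ≥0) (γ : ℝ) (hl : 0 < lam)
    (hg : 0 < γ) (hg1 : γ ≤ 1) (Z : Env) (N : ℕ) (hN : 1 ≤ N) (hT : 0 < TH b lam γ N Z [])
    (η : List ℕ → Measure ℕ) [∀ v, IsProbabilityMeasure (η v)]
    (hη : ∀ v, ∫⁻ k, (k : ℝ≥0∞) ∂(η v) ≤ lam) :
    ∫⁻ ω, VN b Z N ω ∂(FM η) ≤ ENNReal.ofReal ((Z [] : ℝ) / (b * TH b lam γ N Z []) *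
      (1 + (AA b lam γ N Z [] - lam))) := by
  have hl' : (0 : ℝ) < (lam : ℝ) := hl
  have hpot := pot_nonneg hb hl' hg hg1 N Z
  have hZ : 1 ≤ Z [] := by
    by_contra h
    have h0 : Z [] = 0 := by omega
    rw [TH, h0] at hT
    simp at hT
  set S := vert Z N with hSdef
  set P := Measure.infinitePi fun _ : ℕ => unif with hPdef
  let h : List ℕ → List ℕ → ℝ≥0∞ := fun x t => ∫⁻ u, (if Hit b Z N N x u t then 1 else 0) ∂P
  let V : List ℕ → ℝ≥0∞ := fun x => ∫⁻ u, vis b Z N (N + 1) x u ∂P
  have hHm : ∀ x t, Measurable fun u => (if Hit b Z N N x u t then (1 : ℝ≥0∞) else 0) :=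
    fun x t => Measurable.ite (meas_hit b Z N N x t) measurable_const measurable_const
  have hVm : ∀ x, Measurable fun u => vis b Z N (N + 1) x u :=
    fun x => meas_score b Z N (fun _ => 0) (N + 1) x
  let q : List ℕ → Rd → ℝ≥0∞ := fun x r =>
    ∑ j ∈ Finset.range (cnt x r), vis b Z N (N + 1) x (r.2 j)
  let U : List ℕ → ℝ≥0∞ := fun x => cf lam x * ENNReal.ofReal (pot b lam γ N Z x)
  have hcnt : ∀ x, Measurable (cnt x) := by
    intro x
    cases x with
    | nil => exact measurable_const
    | cons i v => exact measurable_fst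
  have hEm : ∀ x y, MeasurableSet {r | edge b lam γ N Z x y r} := by
    intro x y
    have : {r | edge b lam γ N Z x y r} = {r : Rd | ¬ (tv b lam γ N Z y <:+ x)} ∩
        ⋃ j : ℕ, ({r : Rd | j < cnt x r} ∩ {r : Rd | Hit b Z N N x (r.2 j) (tv b lam γ N Z y)}) := by
      ext r
      simp [edge]
    rw [this]
    refine (MeasurableSet.const _).inter (MeasurableSet.iUnion fun j => ?_)
    refine MeasurableSet.inter ?_ ?_
    · exact (hcnt x) (measurableSet_Ioi (a := j))
    · have h1 : Measurable fun r : Rd => r.2 j := (measurable_pi_apply j).comp measurable_snd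
      exact h1 (meas_hit b Z N N x _)
  have hqm : ∀ x, Measurable (q x) := by
    intro x
    have h1 : ∀ r, q x r = ∑' j : ℕ, (if j < cnt x r then
        vis b Z N (N + 1) x (r.2 j) else 0) := by
      intro r
      rw [tsum_eq_sum (s := Finset.range (cnt x r))]
      · refine Finset.sum_congr rfl fun j hj => ?_
        rw [if_pos (Finset.mem_range.1 hj)]
      · intro j hj
        rw [if_neg (by simpa using hj)]
    have h2 : q x = fun r => ∑' j : ℕ, (if j < cnt x r then
        vis b Z N (N + 1) x (r.2 j) else 0) := funext h1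
    rw [h2]
    refine Measurable.tsum fun j => ?_
    refine Measurable.ite ((hcnt x) (measurableSet_Ioi (a := j))) ?_ measurable_const
    exact (hVm x).comp ((measurable_pi_apply j).comp measurable_snd)
  -- integral of q
  have hq : ∀ x, ∫⁻ r, q x r ∂(vertexLaw (η x)) ≤ cf lam x * V x := by
    intro x
    refine (camp' η x _ (hVm x)).le.trans ?_
    exact mul_le_mul' (ce_le η lam hη x) le_rfl
  -- probability of an edge
  have hE : ∀ x y, vertexLaw (η x) {r | edge b lam γ N Z x y r} ≤
      if tv b lam γ N Z y <:+ x then 0 else cf lam x * h x (tv b lam γ N Z y) := by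
    intro x y
    split_ifs with hs
    · have : {r | edge b lam γ N Z x y r} = ∅ := by
        ext r
        simp [edge, hs]
      rw [this]
      simp
    · refine le_trans ?_ (mul_le_mul' (ce_le η lam hη x) le_rfl)
      rw [← camp' η x _ (hHm x (tv b lam γ N Z y)), ← lintegral_indicator_one (hEm x y)]
      refine lintegral_mono fun r => ?_
      by_cases hr : edge b lam γ N Z x y r
      · rw [Set.indicator_of_mem (by exact hr)]
        obtain ⟨j, hj, hj'⟩ := hr.2
        have := Finset.single_le_sum (f := fun j => if Hit b Z N N x (r.2 j) (tv b lam γ N Z y)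
          then (1 : ℝ≥0∞) else 0) (s := Finset.range (cnt x r)) (fun _ _ => zero_le)
          (Finset.mem_range.2 hj)
        simp only [hj', if_true] at this
        exact this
      · rw [Set.indicator_of_notMem (by exact hr)]
        exact zero_le
  have hkey : ∀ x ∈ S, ∫⁻ r, q x r ∂(vertexLaw (η x)) +
      ∑ y ∈ S, vertexLaw (η x) {r | edge b lam γ N Z x y r} * U y ≤ U x := by
    intro x hx
    have hxN : x.length < N := (mem_vert N Z hx).2
    set β : List ℕ → ℝ≥0∞ := fun t => ENNReal.ofReal (bet b lam γ N Z t) with hβ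
    -- the sum over edges
    have hsum : ∑ y ∈ S, vertexLaw (η x) {r | edge b lam γ N Z x y r} * U y ≤
        cf lam x * ∑ t ∈ (S.image (tv b lam γ N Z)).filter (fun t => ¬ (t <:+ x)), h x t * β t := by
      calc ∑ y ∈ S, vertexLaw (η x) {r | edge b lam γ N Z x y r} * U y
          ≤ ∑ y ∈ S, (if tv b lam γ N Z y <:+ x then 0 else
              cf lam x * h x (tv b lam γ N Z y) * (lam * ENNReal.ofReal (pot b lam γ N Z y))) := by
            refine Finset.sum_le_sum fun y _ => ?_
            refine (mul_le_mul_left (hE x y) _).trans ?_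
            split_ifs with hs
            · simp
            · have hy : y ≠ [] := by
                rintro rfl
                exact hs (by rw [tv]; exact List.nil_suffix)
              simp only [U, cf, if_neg hy]
              exact le_rfl
        _ = ∑ y ∈ S.filter (fun y => ¬ (tv b lam γ N Z y <:+ x)),
              cf lam x * h x (tv b lam γ N Z y) * (lam * ENNReal.ofReal (pot b lam γ N Z y)) := by
            rw [Finset.sum_filter]
            refine Finset.sum_congr rfl fun y _ => ?_
            split_ifs <;> first | rfl | contradiction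
        _ = ∑ t ∈ (S.image (tv b lam γ N Z)).filter (fun t => ¬ (t <:+ x)),
              ∑ y ∈ (S.filter (fun y => ¬ (tv b lam γ N Z y <:+ x))).filter
                (fun y => tv b lam γ N Z y = t),
              cf lam x * h x (tv b lam γ N Z y) * (lam * ENNReal.ofReal (pot b lam γ N Z y)) := by
            refine (Finset.sum_fiberwise_of_maps_to (fun y hy => ?_) _).symm
            rw [Finset.mem_filter] at hy ⊢
            exact ⟨Finset.mem_image_of_mem _ hy.1, hy.2⟩
        _ ≤ ∑ t ∈ (S.image (tv b lam γ N Z)).filter (fun t => ¬ (t <:+ x)),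
              cf lam x * h x t * β t := by
            refine Finset.sum_le_sum fun t ht => ?_
            rw [Finset.mem_filter] at ht
            obtain ⟨ht1, ht2⟩ := ht
            have htr : trig b lam γ N Z t := by
              rw [Finset.mem_image] at ht1
              obtain ⟨y, _, rfl⟩ := ht1
              rcases tv_cases b lam γ N Z y with h0 | h0
              · exact absurd (by rw [h0]; exact List.nil_suffix) ht2
              · exact h0
            calc ∑ y ∈ (S.filter (fun y => ¬ (tv b lam γ N Z y <:+ x))).filter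
                  (fun y => tv b lam γ N Z y = t),
                  cf lam x * h x (tv b lam γ N Z y) * (lam * ENNReal.ofReal (pot b lam γ N Z y))
                = ∑ y ∈ (S.filter (fun y => ¬ (tv b lam γ N Z y <:+ x))).filter
                  (fun y => tv b lam γ N Z y = t),
                  cf lam x * h x t * (lam * ENNReal.ofReal (pot b lam γ N Z y)) := by
                  refine Finset.sum_congr rfl fun y hy => ?_
                  rw [(Finset.mem_filter.1 hy).2]
              _ = cf lam x * h x t * ∑ y ∈ (S.filter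
                  (fun y => ¬ (tv b lam γ N Z y <:+ x))).filter (fun y => tv b lam γ N Z y = t),
                  (lam * ENNReal.ofReal (pot b lam γ N Z y)) := by rw [Finset.mul_sum]
              _ ≤ cf lam x * h x t * ∑ y ∈ S.filter (fun y => tv b lam γ N Z y = t),
                  (lam * ENNReal.ofReal (pot b lam γ N Z y)) := by
                  refine mul_le_mul_right ?_ _
                  refine Finset.sum_le_sum_of_subset ?_
                  intro y hy
                  rw [Finset.mem_filter, Finset.mem_filter] at hy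
                  exact Finset.mem_filter.2 ⟨hy.1.1, hy.2⟩
              _ ≤ cf lam x * h x t * β t := by
                  refine mul_le_mul_right ?_ _
                  have h1 := (taskBlk b lam γ hb hl' hg hg1 Z N).1 t htr
                  have h2 : ∑ y ∈ S.filter (fun y => tv b lam γ N Z y = t),
                      ((lam : ℝ≥0∞) * ENNReal.ofReal (pot b lam γ N Z y)) =
                      ENNReal.ofReal (∑ y ∈ S.filter (fun y => tv b lam γ N Z y = t),
                        (lam : ℝ) * pot b lam γ N Z y) := by
                    rw [ENNReal.ofReal_sum_of_nonneg]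
                    · refine Finset.sum_congr rfl fun y _ => ?_
                      rw [ENNReal.ofReal_mul (by positivity), ENNReal.ofReal_coe_nnreal]
                    · intro y _
                      exact mul_nonneg hl'.le (hpot y)
                  rw [h2]
                  exact ENNReal.ofReal_le_ofReal h1
        _ = cf lam x * ∑ t ∈ (S.image (tv b lam γ N Z)).filter (fun t => ¬ (t <:+ x)),
              h x t * β t := by
            rw [Finset.mul_sum]
            exact Finset.sum_congr rfl fun t _ => by ring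
    have hscore : V x + ∑ t ∈ (S.image (tv b lam γ N Z)).filter (fun t => ¬ (t <:+ x)),
        h x t * β t ≤ ENNReal.ofReal (pot b lam γ N Z x) := by
      have h1 := taskWalk b hseq Z N β (fun y => ENNReal.ofReal (pot b lam γ N Z y))
        (taskPot b lam γ hb hl' hg hg1 Z N hT) (N + 1) x hxN
      refine le_trans ?_ h1
      have h2 : V x + ∑ t ∈ (S.image (tv b lam γ N Z)).filter (fun t => ¬ (t <:+ x)),
          h x t * β t = ∫⁻ u, (vis b Z N (N + 1) x u +
            ∑ t ∈ (S.image (tv b lam γ N Z)).filter (fun t => ¬ (t <:+ x)),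
              (if Hit b Z N N x u t then β t else 0)) ∂P := by
        rw [lintegral_add_left (hVm x)]
        congr 1
        rw [lintegral_finsetSum']
        · refine Finset.sum_congr rfl fun t _ => ?_
          have : ∀ u, (if Hit b Z N N x u t then β t else 0) =
              (if Hit b Z N N x u t then (1 : ℝ≥0∞) else 0) * β t := by
            intro u; split_ifs <;> simp
          simp_rw [this]
          rw [lintegral_mul_const _ (hHm x t)]
        · intro t _
          exact (Measurable.ite (meas_hit b Z N N x t) measurable_const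
            measurable_const).aemeasurable
      rw [h2]
      exact lintegral_mono fun u => taskScore b Z N β _ N x u hxN
    refine (add_le_add (hq x) hsum).trans ?_
    rw [← mul_add]
    exact mul_le_mul_right hscore _
  -- chain bound
  have hBS : blockRoot b lam γ N Z ⊆ S := Finset.filter_subset _ _
  have h1 := chain (List ℕ) Rd (fun x => vertexLaw (η x)) (blockRoot b lam γ N Z) S hBS
    (edge b lam γ N Z) hEm q hqm U hkey
  have h2 : ∫⁻ ω, VN b Z N ω ∂(FM η) ≤ ∫⁻ ω, ∑ z ∈ S,
      (if Reach (blockRoot b lam γ N Z) S (edge b lam γ N Z) ω z then q z (ω z) else 0)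
      ∂(Measure.infinitePi fun x : List ℕ => vertexLaw (η x)) := by
    rw [FM]
    refine lintegral_mono fun ω => ?_
    rw [VN]
    refine Finset.sum_le_sum fun z _ => ?_
    by_cases hz : ActiveN b Z N ω z
    · rw [if_pos hz, if_pos (Dom.dom b lam γ Z N ω z hZ hN hz).2]
    · rw [if_neg hz]
      exact zero_le
  refine h2.trans (h1.trans ?_)
  have hroot : ([] : List ℕ) ∈ blockRoot b lam γ N Z := by
    rw [blockRoot, Finset.mem_filter]
    refine ⟨?_, rfl⟩
    rw [vert, Finset.mem_biUnion]
    exact ⟨0, Finset.mem_range.2 hN, by simp [lev]⟩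
  have hsplit : ∑ x ∈ blockRoot b lam γ N Z, U x = U [] +
      ∑ x ∈ (blockRoot b lam γ N Z).filter (fun y => y ≠ []), U x := by
    rw [← Finset.sum_filter_add_sum_filter_not _ (fun y : List ℕ => y = [])]
    congr 1
    have : (blockRoot b lam γ N Z).filter (fun y => y = []) = {[]} := by
      ext y
      rw [Finset.mem_filter, Finset.mem_singleton]
      exact ⟨fun h => h.2, fun h => ⟨h ▸ hroot, h⟩⟩
    rw [this, Finset.sum_singleton]
  rw [hsplit]
  have h3 : ∑ x ∈ (blockRoot b lam γ N Z).filter (fun y => y ≠ []), U x =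
      ENNReal.ofReal (∑ y ∈ (blockRoot b lam γ N Z).filter (fun y => y ≠ []),
        (lam : ℝ) * pot b lam γ N Z y) := by
    rw [ENNReal.ofReal_sum_of_nonneg]
    · refine Finset.sum_congr rfl fun y hy => ?_
      simp only [U, cf]
      rw [if_neg (Finset.mem_filter.1 hy).2, ENNReal.ofReal_mul (by positivity),
        ENNReal.ofReal_coe_nnreal]
    · intro y _
      exact mul_nonneg hl'.le (hpot y)
  have h4 := (taskBlk b lam γ hb hl' hg hg1 Z N).2
  have hp0 := hpot []
  rw [h3]
  calc U [] + ENNReal.ofReal (∑ y ∈ (blockRoot b lam γ N Z).filter (fun y => y ≠ []),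
        (lam : ℝ) * pot b lam γ N Z y)
      ≤ ENNReal.ofReal (pot b lam γ N Z []) +
        ENNReal.ofReal ((AA b lam γ N Z [] - lam) * pot b lam γ N Z []) := by
        refine add_le_add ?_ (ENNReal.ofReal_le_ofReal h4)
        simp [U, cf]
    _ = ENNReal.ofReal ((Z [] : ℝ) / (b * TH b lam γ N Z []) *
          (1 + (AA b lam γ N Z [] - lam))) := by
        rw [← ENNReal.ofReal_add hp0 (mul_nonneg ?_ hp0)]
        · congr 1
          rw [show pot b lam γ N Z [] = (Z [] : ℝ) / (b * TH b lam γ N Z []) from rfl]
          ring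
        · rw [AA, add_sub_cancel_left]
          exact Finset.sum_nonneg fun i _ => (taskTA b lam γ hb hl' hg hg1 _ _).1

end FrogB
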